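import Pool.Agent.Q218.DC.Dec

/-!
Covariances of functions of the exploration path in the half-plane at two scales.
-/

set_option autoImplicit false

namespace Pool.Agent.Q218.DC

open H984H H974 Finset H342P H984P MeasureTheory Filter Topology
open Pool.Agent.Q218.ZO

theorem sd_src_tgt (e : Edg) : sd (src e) (0, 0) ≤ sd (tgt e) (0, 0) + 1 ∧
    sd (tgt e) (0, 0) ≤ sd (src e) (0, 0) + 1 := by
  obtain ⟨x, y, _ | _⟩ := e
  · rw [Ret_sd, Ret_sd]
    simp only [src_mk, tgt_false]
    have h1 : |y + 1| ≤ |y| + 1 := by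
      have := abs_add_le y 1
      simpa using this
    have h2 : |y| ≤ |y + 1| + 1 := by
      have := abs_add_le (y + 1) (-1)
      simpa using this
    constructor
    · apply max_le
      · have := le_max_left |x| |y + 1|; omega
      · have := le_max_right |x| |y + 1|; omega
    · apply max_le
      · have := le_max_left |x| |y|; omega
      · have := le_max_right |x| |y|; omega
  · rw [Ret_sd, Ret_sd]
    simp only [src_mk, tgt_true]
    have h1 : |x + 1| ≤ |x| + 1 := by
      have := abs_add_le x 1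
      simpa using this
    have h2 : |x| ≤ |x + 1| + 1 := by
      have := abs_add_le (x + 1) (-1)
      simpa using this
    constructor
    · apply max_le
      · have := le_max_left |x + 1| |y|; omega
      · have := le_max_right |x + 1| |y|; omega
    · apply max_le
      · have := le_max_left |x| |y|; omega
      · have := le_max_right |x| |y|; omega

/-- the path in the box only depends on the edges in the box -/
theorem path_restr {r : ℤ} {m : ℕ} {ω : Conf} (ω0 : Conf) (hS : Stay r m ω) :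
    ∀ j ≤ m, path (mix (box r) ω0 ω) j = path ω j := by
  intro j
  induction j with
  | zero => intro _; rfl
  | succ j ih =>
    intro hj
    have h1 := ih (by omega)
    rw [path_succ, path_succ, h1]
    apply step_congr
    intro e he
    have hv : sd (path ω j).1 (0, 0) < r := hS j (by omega)
    have hb : e ∈ box r := by
      obtain ⟨g1, g2⟩ := sd_src_tgt e
      rcases he with he | he
      · rw [← he] at hv
        exact ⟨by omega, by omega⟩
      · rw [← he] at hv
        exact ⟨by omega, by omega⟩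
    have h2 : mix (box r) ω0 ω e = ω e := mix_in hb
    unfold H984H.opn
    simp only [Set.mem_ofPred_eq]
    rw [h2]

theorem int_abs_le {Ω : Type*} [MeasurableSpace Ω] (μ : Measure Ω) [IsProbabilityMeasure μ]
    {u : Ω → ℝ} (mu : Measurable u) {K δ : ℝ} (hδ : 0 ≤ δ) (hK : ∀ ω, |u ω| ≤ K)
    {s : Set Ω} (hs : ∀ ω, ω ∉ s → |u ω| ≤ δ) : ∫ ω, |u ω| ∂μ ≤ δ + K * μ.real s := by
  set s' : Set Ω := {ω | δ < |u ω|} with hs'
  have ms' : MeasurableSet s' := measurableSet_lt measurable_const mu.abs
  have hsub : s' ⊆ s := by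
    intro ω hω
    by_contra hcon
    exact absurd (hs ω hcon) (not_le.2 hω)
  have hint : Integrable (fun ω => |u ω|) μ :=
    Integrable.of_bound mu.abs.aestronglyMeasurable K (Eventually.of_forall fun ω => by
      rw [Real.norm_eq_abs, abs_abs]; exact hK ω)
  have hμ : Nonempty Ω := by
    by_contra hcon
    rw [not_nonempty_iff] at hcon
    have h1 := measure_univ (μ := μ)
    rw [Set.univ_eq_empty_iff.2 hcon, measure_empty] at h1
    exact zero_ne_one h1
  obtain ⟨ω0⟩ := hμ
  have hK0 : 0 ≤ K := (abs_nonneg _).trans (hK ω0)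
  have hle : ∀ ω, |u ω| ≤ δ + s'.indicator (fun _ => K) ω := by
    intro ω
    by_cases h : ω ∈ s'
    · rw [Set.indicator_of_mem h]
      have := hK ω
      linarith
    · rw [Set.indicator_of_notMem h, add_zero]
      exact not_lt.1 h
  calc ∫ ω, |u ω| ∂μ ≤ ∫ ω, (δ + s'.indicator (fun _ => K) ω) ∂μ := by
        apply integral_mono hint _ hle
        exact (integrable_const _).add ((integrable_const K).indicator ms')
    _ = δ + K * μ.real s' := by
        rw [integral_add (integrable_const _) ((integrable_const K).indicator ms'),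
          integral_indicator_const _ ms']
        simp [mul_comm]
    _ ≤ δ + K * μ.real s := by
        have := measureReal_mono (μ := μ) hsub (measure_ne_top _ _)
        have := mul_le_mul_of_nonneg_left this hK0
        linarith

theorem cov_gen {r : ℤ} {m : ℕ} {h : (ℕ → ℂ) → ℝ} (mh : Measurable h)
    (hm : ∀ x y : ℕ → ℂ, (∀ k ≤ m, x k = y k) → h x = h y) (hb : ∀ x, |h x| ≤ 1)
    {G : Conf → ℝ} (mG : Measurable G) (hG : ∀ ω, |G ω| ≤ 1) :
    |∫ ω, h (gam ω) * G ω ∂perc - (∫ ω, h (gam ω) ∂perc) * ∫ ω, G ω ∂perc| ≤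
      4 * perc.real {ω | ¬ Stay r m ω} +
        ∫ p, |G p.1 - G (mix (box r) p.1 p.2)| ∂(perc.prod perc) := by
  set F : Conf → ℝ := fun ω => h (gam (mix (box r) (fun _ => false) ω)) with hF
  have mF : Measurable F := mh.comp (gam_measurable.comp
    ((mix_meas (box r)).comp (measurable_const.prodMk measurable_id)))
  have mH : Measurable (fun ω : Conf => h (gam ω)) := mh.comp gam_measurable
  have hFb : ∀ ω, |F ω| ≤ 1 := fun ω => hb _
  have hFd : ∀ ω ω' : Conf, (∀ i ∈ box r, ω i = ω' i) → F ω = F ω' := by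
    intro ω ω' hw
    have : mix (box r) (fun _ => false) ω = mix (box r) (fun _ => false) ω' := by
      funext i
      by_cases hi : i ∈ box r
      · rw [mix_in hi, mix_in hi]; exact hw i hi
      · rw [mix_out hi, mix_out hi]
    show h _ = h _
    rw [this]
  have hbd : ∀ u : Conf → ℝ, Measurable u → (∀ ω, |u ω| ≤ 2) → Integrable u perc := by
    intro u mu hu
    exact Integrable.of_bound mu.aestronglyMeasurable 2 (Eventually.of_forall fun ω => by
      rw [Real.norm_eq_abs]; exact hu ω)
  have hle1 : ∀ a b : ℝ, |a| ≤ 1 → |b| ≤ 1 → |a * b| ≤ 2 := by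
    intro a b ha hb
    rw [abs_mul]
    have := mul_le_mul ha hb (abs_nonneg b) zero_le_one
    linarith
  have iH := hbd _ mH fun ω => (hb _).trans (by norm_num)
  have iF := hbd _ mF fun ω => (hFb _).trans (by norm_num)
  have iHG : Integrable (fun ω => h (gam ω) * G ω) perc :=
    hbd _ (mH.mul mG) fun ω => hle1 _ _ (hb _) (hG ω)
  have iFG : Integrable (fun ω => F ω * G ω) perc :=
    hbd _ (mF.mul mG) fun ω => hle1 _ _ (hFb _) (hG ω)
  have hdiff : ∫ ω, |h (gam ω) - F ω| ∂perc ≤ 2 * perc.real {ω | ¬ Stay r m ω} := by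
    have h1 := int_abs_le perc (mH.sub mF) (K := 2) (δ := 0) le_rfl (fun ω => by
      have h2 := hb (gam ω)
      have h3 := hFb ω
      have h4 := abs_sub (h (gam ω)) (F ω)
      exact h4.trans (by linarith)) (s := {ω | ¬ Stay r m ω}) (fun ω hω => by
      simp only [Set.mem_ofPred_eq, not_not] at hω
      have h2 := path_restr (fun _ => false) hω
      have h3 : h (gam ω) = F ω := by
        apply hm
        intro k hk
        unfold gam
        rw [h2 k hk]
      show |h (gam ω) - F ω| ≤ 0
      rw [h3, sub_self, abs_zero])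
    rw [zero_add] at h1
    exact h1
  -- the first difference
  have d1 : |∫ ω, h (gam ω) * G ω ∂perc - ∫ ω, F ω * G ω ∂perc| ≤
      2 * perc.real {ω | ¬ Stay r m ω} := by
    rw [← integral_sub iHG iFG]
    refine (abs_integral_le_integral_abs).trans (le_trans ?_ hdiff)
    apply integral_mono (hbd _ ((mH.mul mG).sub (mF.mul mG)).abs fun ω => ?_)
      (hbd _ (mH.sub mF).abs fun ω => ?_)
    · intro ω
      show |h (gam ω) * G ω - F ω * G ω| ≤ |h (gam ω) - F ω|
      rw [← sub_mul, abs_mul]
      exact mul_le_of_le_one_right (abs_nonneg _) (hG ω)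
    · show |(|h (gam ω) * G ω - F ω * G ω|)| ≤ 2
      rw [abs_abs, ← sub_mul, abs_mul]
      have h2 := hb (gam ω)
      have h3 := hFb ω
      have h4 := abs_sub (h (gam ω)) (F ω)
      have h5 := mul_le_of_le_one_right (abs_nonneg (h (gam ω) - F ω)) (hG ω)
      linarith
    · show |(|h (gam ω) - F ω|)| ≤ 2
      rw [abs_abs]
      have h2 := hb (gam ω)
      have h3 := hFb ω
      have h4 := abs_sub (h (gam ω)) (F ω)
      linarith
  have d2 : |∫ ω, h (gam ω) ∂perc - ∫ ω, F ω ∂perc| ≤ 2 * perc.real {ω | ¬ Stay r m ω} := by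
    rw [← integral_sub iH iF]
    exact (abs_integral_le_integral_abs).trans hdiff
  -- resampling
  have e1 := int_mix (fun _ : Edg => (PMF.uniformOfFintype Bool).toMeasure) (box r) mF mG hFd hFb hG
  have e2 : ∫ ω, F ω * G ω ∂perc = ∫ p, F p.1 * G p.1 ∂(perc.prod perc) := by
    have h1 : (perc.prod perc).map Prod.fst = perc := by
      rw [Measure.map_fst_prod]
      simp
    have h2 := integral_map (μ := perc.prod perc) (φ := Prod.fst) measurable_fst.aemeasurable
      (f := fun ω : Conf => F ω * G ω) (mF.mul mG).aestronglyMeasurable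
    rw [h1] at h2
    exact h2
  have hbd2 : ∀ u : Conf × Conf → ℝ, Measurable u → (∀ ω, |u ω| ≤ 2) →
      Integrable u (perc.prod perc) := by
    intro u mu hu
    exact Integrable.of_bound mu.aestronglyMeasurable 2 (Eventually.of_forall fun ω => by
      rw [Real.norm_eq_abs]; exact hu ω)
  have mG1 : Measurable (fun p : Conf × Conf => G p.1) := mG.comp measurable_fst
  have mG2 : Measurable (fun p : Conf × Conf => G (mix (box r) p.1 p.2)) := mG.comp (mix_meas _)
  have mF1 : Measurable (fun p : Conf × Conf => F p.1) := mF.comp measurable_fst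
  have d3 : |∫ ω, F ω * G ω ∂perc - (∫ ω, F ω ∂perc) * ∫ ω, G ω ∂perc| ≤
      ∫ p, |G p.1 - G (mix (box r) p.1 p.2)| ∂(perc.prod perc) := by
    have e3 : (∫ ω, F ω ∂perc) * ∫ ω, G ω ∂perc =
        ∫ p, F p.1 * G (mix (box r) p.1 p.2) ∂(perc.prod perc) := e1.symm
    have j1 : Integrable (fun p : Conf × Conf => F p.1 * G p.1) (perc.prod perc) :=
      hbd2 _ (mF1.mul mG1) fun p => hle1 _ _ (hFb _) (hG _)
    have j2 : Integrable (fun p : Conf × Conf => F p.1 * G (mix (box r) p.1 p.2))
        (perc.prod perc) := hbd2 _ (mF1.mul mG2) fun p => hle1 _ _ (hFb _) (hG _)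
    rw [e2, e3, ← integral_sub j1 j2]
    refine (abs_integral_le_integral_abs).trans ?_
    apply integral_mono (hbd2 _ ((mF1.mul mG1).sub (mF1.mul mG2)).abs fun ω => ?_)
      (hbd2 _ (mG1.sub mG2).abs fun ω => ?_)
    · intro p
      show |F p.1 * G p.1 - F p.1 * G (mix (box r) p.1 p.2)| ≤ |G p.1 - G (mix (box r) p.1 p.2)|
      rw [← mul_sub, abs_mul]
      exact mul_le_of_le_one_left (abs_nonneg _) (hFb _)
    · show |(|F ω.1 * G ω.1 - F ω.1 * G (mix (box r) ω.1 ω.2)|)| ≤ 2
      rw [abs_abs, ← mul_sub, abs_mul]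
      have h2 := hG ω.1
      have h3 := hG (mix (box r) ω.1 ω.2)
      have h4 := abs_sub (G ω.1) (G (mix (box r) ω.1 ω.2))
      have h5 := mul_le_of_le_one_left (abs_nonneg (G ω.1 - G (mix (box r) ω.1 ω.2))) (hFb ω.1)
      linarith
    · show |(|G ω.1 - G (mix (box r) ω.1 ω.2)|)| ≤ 2
      rw [abs_abs]
      have h2 := hG ω.1
      have h3 := hG (mix (box r) ω.1 ω.2)
      have h4 := abs_sub (G ω.1) (G (mix (box r) ω.1 ω.2))
      linarith
  have hG1 : |∫ ω, G ω ∂perc| ≤ 1 := by
    refine (abs_integral_le_integral_abs).trans ?_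
    calc ∫ ω, |G ω| ∂perc ≤ ∫ _ω, (1 : ℝ) ∂perc := by
          apply integral_mono (hbd _ mG.abs fun ω => by
            rw [abs_abs]; exact (hG ω).trans (by norm_num)) (integrable_const _)
          exact fun ω => hG ω
      _ = 1 := by simp
  have d4 : |(∫ ω, F ω ∂perc) * (∫ ω, G ω ∂perc) - (∫ ω, h (gam ω) ∂perc) * ∫ ω, G ω ∂perc| ≤
      2 * perc.real {ω | ¬ Stay r m ω} := by
    rw [← sub_mul, abs_mul, abs_sub_comm]
    exact (mul_le_of_le_one_right (abs_nonneg _) hG1).trans d2
  have t1 := abs_sub_le (∫ ω, h (gam ω) * G ω ∂perc) (∫ ω, F ω * G ω ∂perc)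
    ((∫ ω, h (gam ω) ∂perc) * ∫ ω, G ω ∂perc)
  have t2 := abs_sub_le (∫ ω, F ω * G ω ∂perc) ((∫ ω, F ω ∂perc) * ∫ ω, G ω ∂perc)
    ((∫ ω, h (gam ω) ∂perc) * ∫ ω, G ω ∂perc)
  linarith

/-- **Decorrelation of scales.** -/
theorem cov : ∃ C c : ℝ, 0 < C ∧ 0 < c ∧ ∀ m n : ℕ, 1 ≤ m → m ≤ n →
    ∀ h : (ℕ → ℂ) → ℝ, Measurable h → (∀ x y : ℕ → ℂ, (∀ k ≤ m, x k = y k) → h x = h y) →
    (∀ x, |h x| ≤ 1) → ∀ g : C(unitInterval, ℂ) → ℝ, (∀ f, |g f| ≤ 1) →
    (∀ f f', |g f - g f'| ≤ dist f f') →
    |∫ ω, h (gam ω) * g (curve n ω) ∂perc -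
      (∫ ω, h (gam ω) ∂perc) * ∫ ω, g (curve n ω) ∂perc| ≤ C * ((m : ℝ) / n) ^ c := by
  obtain ⟨C, c, hC, hc, key⟩ := main
  refine ⟨7 * C, c, by positivity, hc, ?_⟩
  intro m n hm hmn h mh hd hb g hg hlip
  obtain ⟨r, h1, h2⟩ := key m n hm hmn
  set δ : ℝ := C * ((m : ℝ) / n) ^ c with hδ
  have hδ0 : 0 ≤ δ := by positivity
  have gc : Continuous g := by
    have : LipschitzWith 1 g := LipschitzWith.of_dist_le_mul fun f f' => by
      rw [Real.dist_eq, NNReal.coe_one, one_mul]
      exact hlip f f'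
    exact this.continuous
  have mG : Measurable (fun ω : Conf => g (curve n ω)) := gc.measurable.comp (curve_meas n)
  have h3 := cov_gen (r := r) mh hd hb mG (fun ω => hg _)
  refine h3.trans ?_
  have h4 := int_abs_le (perc.prod perc) (u := fun p : Conf × Conf =>
    g (curve n p.1) - g (curve n (mix (box r) p.1 p.2)))
    ((mG.comp measurable_fst).sub (mG.comp (mix_meas _))) (K := 2) hδ0 (fun p => by
      have g2 := hg (curve n p.1)
      have g3 := hg (curve n (mix (box r) p.1 p.2))
      have g4 := abs_sub (g (curve n p.1)) (g (curve n (mix (box r) p.1 p.2)))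
      linarith) (s := {p : Conf × Conf | δ < dist (curve n p.1) (curve n (mix (box r) p.1 p.2))})
    (fun p hp => (hlip _ _).trans (not_lt.1 hp))
  linarith

end Pool.Agent.Q218.DC
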