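import Pool.Agent.H984R4.HN.TailUp
import Pool.Agent.H984R4.HN.Disp

/-!
Modulus of continuity of the exploration path in the half-plane, with polynomial tails.
-/

set_option autoImplicit false

namespace Pool.Agent.Q218.DC

open H984H H974 Finset H342P H984P MeasureTheory

/-- A fast subpath of the path in the half-plane is a fast subpath of the path in the box. -/
theorem fast_of_path {ρ w : ℤ} (hρ : 1 ≤ ρ) {ω : Conf} {n : ℕ} {M : ℝ} (hS : Stay ρ n ω)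
    {k l : ℕ} (hkl : k ≤ l) (hl : l ≤ n) (hM : ((l - k : ℕ) : ℝ) < M)
    (hw : w ≤ sd (path ω k).1 (path ω l).1) : (bx ρ).Fast w M (cut ω ρ) := by
  obtain ⟨h1, h2⟩ := couple hρ ω (k := k) fun j hj => hS j (by omega)
  obtain ⟨h3, h4⟩ := couple hρ ω (k := l) fun j hj => hS j (by omega)
  refine ⟨(bx ρ).len (cut ω ρ) - 1 - l, (bx ρ).len (cut ω ρ) - 1 - k, by omega, by omega, ?_, ?_⟩
  · rw [h2, h4, Trans_sd_comm]
    exact hw
  · have h6 : (bx ρ).len (cut ω ρ) - 1 - k - ((bx ρ).len (cut ω ρ) - 1 - l) = l - k := by omega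
    rw [h6]
    exact hM

theorem gam_lip (ω : Conf) {k l : ℕ} (h : k ≤ l) : dist (gam ω k) (gam ω l) ≤ ((l - k : ℕ) : ℝ) := by
  induction l, h using Nat.le_induction with
  | base => simp
  | succ l hl ih =>
    have h1 := gam_step ω l
    have h2 := dist_triangle (gam ω k) (gam ω l) (gam ω (l + 1))
    have h3 : ((l + 1 - k : ℕ) : ℝ) = ((l - k : ℕ) : ℝ) + 1 := by
      rw [Nat.sub_add_comm hl]
      push_cast
      ring
    rw [h3]
    linarith

/-- the bad event of the modulus of continuity -/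
def Rough (B t : ℝ) (n : ℕ) (ω : Conf) : Prop :=
  ∃ k l : ℕ, k ≤ l ∧ l ≤ n ∧ ((l - k : ℕ) : ℝ) ≤ n / t ^ 14 ∧
    B * ((n : ℝ) ^ (4/7 : ℝ) / t ^ 2) ≤ dist (gam ω k) (gam ω l)

theorem tail_t {a : ℝ} (ha : 0 < a) {t : ℝ} (ht : 1 ≤ t) :
    Real.exp (-(a * (t / 2) ^ (1/2 : ℝ))) ≤ 4 / a ^ 2 / t := by
  have h0 : 0 ≤ t / 2 := by linarith
  set x := a * (t / 2) ^ (1/2 : ℝ) with hx
  have hx0 : 0 < x := by positivity
  have hx2 : x ^ 2 = a ^ 2 * (t / 2) := by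
    rw [hx, mul_pow, ← Real.sqrt_eq_rpow, Real.sq_sqrt h0]
  have h1 := Real.pow_div_factorial_le_exp x hx0.le 2
  have h2 : ((Nat.factorial 2 : ℕ) : ℝ) = 2 := by norm_num [Nat.factorial]
  rw [h2, hx2] at h1
  rw [Real.exp_neg, inv_le_comm₀ (Real.exp_pos _) (by positivity)]
  refine le_trans (le_of_eq ?_) h1
  field_simp
  ring

theorem geo_t {q β : ℝ} (hq0 : 0 < q) (hq1 : q < 1) (hβ : 0 < β) :
    ∃ B : ℝ, 0 < B ∧ ∀ t : ℝ, 1 ≤ t → t ^ 18 * q ^ (⌊β * t ^ 3⌋₊) ≤ B / t := by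
  set l : ℝ := - Real.log q with hl
  have hl0 : 0 < l := by
    have := Real.log_neg hq0 hq1
    linarith
  refine ⟨Real.exp l * ((Nat.factorial 7 : ℕ) : ℝ) / (l * β) ^ 7, by positivity, fun t ht => ?_⟩
  have ht0 : 0 < t := by linarith
  set K := ⌊β * t ^ 3⌋₊ with hK
  have h1 : q ^ K = Real.exp (-(l * K)) := by
    rw [hl, neg_mul, neg_neg, mul_comm, Real.exp_nat_mul, Real.exp_log hq0]
  have h2 : β * t ^ 3 < K + 1 := Nat.lt_floor_add_one _
  have h3 : Real.exp (-(l * K)) ≤ Real.exp l * Real.exp (-(l * (β * t ^ 3))) := by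
    rw [← Real.exp_add]
    apply Real.exp_le_exp.2
    have := mul_lt_mul_of_pos_left h2 hl0
    linarith
  have h4 := Real.pow_div_factorial_le_exp (l * (β * t ^ 3)) (by positivity) 7
  have hF : (0 : ℝ) < ((Nat.factorial 7 : ℕ) : ℝ) := by exact_mod_cast Nat.factorial_pos 7
  have h5 : t ^ 21 * Real.exp (-(l * (β * t ^ 3))) ≤ ((Nat.factorial 7 : ℕ) : ℝ) / (l * β) ^ 7 := by
    rw [Real.exp_neg, ← div_eq_mul_inv, div_le_div_iff₀ (Real.exp_pos _) (by positivity)]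
    rw [div_le_iff₀ hF] at h4
    calc t ^ 21 * (l * β) ^ 7 = (l * (β * t ^ 3)) ^ 7 := by ring
      _ ≤ Real.exp (l * (β * t ^ 3)) * ((Nat.factorial 7 : ℕ) : ℝ) := h4
      _ = _ := mul_comm _ _
  rw [h1, le_div_iff₀ ht0]
  calc t ^ 18 * Real.exp (-(l * K)) * t = t ^ 19 * Real.exp (-(l * K)) := by ring
    _ ≤ t ^ 21 * (Real.exp l * Real.exp (-(l * (β * t ^ 3)))) := by
        apply mul_le_mul _ h3 (Real.exp_nonneg _) (by positivity)
        exact pow_le_pow_right₀ ht (by norm_num)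
    _ = Real.exp l * (t ^ 21 * Real.exp (-(l * (β * t ^ 3)))) := by ring
    _ ≤ Real.exp l * (((Nat.factorial 7 : ℕ) : ℝ) / (l * β) ^ 7) :=
        mul_le_mul_of_nonneg_left h5 (Real.exp_nonneg _)
    _ = _ := by ring

/-- **Modulus of continuity.** -/
theorem rough_prob {c C : ℝ} (hc : 0 < c) (hC : 0 < C) (hL : LowA c (1/4)) (hU : TwoUp C (1/4)) :
    ∃ B : ℝ, 1 ≤ B ∧ ∀ (n : ℕ) (t : ℝ), 1 ≤ n → 1 ≤ t →
      perc.real {ω | Rough B t n ω} ≤ B / t := by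
  obtain ⟨c1, C1, q, hc1, hC1, hq0, hq1, hsc⟩ := scale_one hc hC hL hU
  obtain ⟨a, A, ha, hA, hup⟩ := tail_up hc hC hL hU
  -- `β`
  obtain ⟨β, hβ0, hβ1, hβ2⟩ : ∃ β : ℝ, 0 < β ∧ 2 * β ^ 2 ≤ 1 ∧ 2 * β ^ 2 < c1 := by
    refine ⟨min (1/2) (c1 / 2), by positivity, ?_, ?_⟩
    · have h1 : min (1/2) (c1 / 2) ≤ 1/2 := min_le_left _ _
      have h2 : 0 < min (1/2) (c1 / 2) := by positivity
      nlinarith
    · have h1 : min (1/2) (c1 / 2) ≤ 1/2 := min_le_left _ _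
      have h3 : min (1/2) (c1 / 2) ≤ c1/2 := min_le_right _ _
      have h2 : 0 < min (1/2) (c1 / 2) := by positivity
      nlinarith
  obtain ⟨B1, hB1, hgeo⟩ := geo_t hq0 hq1 hβ0
  set t0 : ℝ := max 2 (1 / β) with ht0
  have ht02 : 2 ≤ t0 := le_max_left _ _
  have ht0β : 1 / β ≤ t0 := le_max_right _ _
  set G : ℝ := max 2 (2 * C1 * β ^ 2) with hG
  have hG2 : 2 ≤ G := le_max_left _ _
  have hGC : 2 * C1 * β ^ 2 ≤ G := le_max_right _ _
  set Q : ℝ := C1 * 64 * β ^ 4 * B1 + A * (4 / a ^ 2) with hQ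
  have hQ0 : 0 < Q := by positivity
  refine ⟨t0 + 4 + (G ^ (7/4 : ℝ) + 1) + Q, ?_, ?_⟩
  · have : 0 ≤ G ^ (7/4 : ℝ) := by positivity
    linarith
  intro n t hn ht
  have hG0 : 0 ≤ G ^ (7/4 : ℝ) := by positivity
  set B : ℝ := t0 + 4 + (G ^ (7/4 : ℝ) + 1) + Q with hB
  have hBt0 : t0 ≤ B := by linarith
  have hB4 : 4 ≤ B := by linarith
  have hBG : G ^ (7/4 : ℝ) < B := by linarith
  have hBQ : Q ≤ B := by linarith
  have ht' : 0 < t := by linarith
  have hnr : (1 : ℝ) ≤ n := by exact_mod_cast hn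
  have hn0 : (0 : ℝ) < n := by linarith
  set N : ℝ := (n : ℝ) ^ (4/7 : ℝ) with hN
  have hN1 : 1 ≤ N := Real.one_le_rpow hnr (by norm_num)
  have hN0 : 0 < N := by linarith
  have hN74 : N ^ (7/4 : ℝ) = n := by
    rw [hN, ← Real.rpow_mul hn0.le]
    norm_num
  rcases lt_or_ge t t0 with hts | htl
  · -- small `t`
    refine measureReal_le_one.trans ?_
    rw [le_div_iff₀ ht']
    linarith
  rcases lt_or_ge N (G * t ^ 8) with hNs | hNl
  · -- few steps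
    have hemp : {ω : Conf | Rough B t n ω} = ∅ := by
      ext ω
      simp only [Set.mem_ofPred_eq, Set.mem_empty_iff_false, iff_false]
      rintro ⟨k, l, hkl, hl, h1, h2⟩
      have h3 := gam_lip ω hkl
      rcases lt_or_ge (n : ℝ) (t ^ 14) with hnt | hnt
      · have h4 : ((l - k : ℕ) : ℝ) < 1 := by
          refine lt_of_le_of_lt h1 ?_
          rw [div_lt_one (by positivity)]
          exact hnt
        have h5 : l - k = 0 := by
          have : l - k < 1 := by exact_mod_cast h4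
          omega
        rw [h5] at h3
        have h6 : 0 < B * (N / t ^ 2) := by positivity
        push_cast at h3
        linarith
      · have h4 : (n : ℝ) / t ^ 14 ≤ G ^ (7/4 : ℝ) := by
          rw [div_le_iff₀ (by positivity), ← hN74]
          calc N ^ (7/4 : ℝ) ≤ (G * t ^ 8) ^ (7/4 : ℝ) :=
                Real.rpow_le_rpow hN0.le hNs.le (by norm_num)
            _ = G ^ (7/4 : ℝ) * t ^ 14 := by
                rw [Real.mul_rpow (by linarith) (by positivity), ← Real.rpow_natCast,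
                  ← Real.rpow_natCast, ← Real.rpow_mul ht'.le]
                norm_num
        have h5 : 1 ≤ N / t ^ 2 := by
          rw [le_div_iff₀ (by positivity), one_mul]
          have h6 : (t ^ 14) ^ (4/7 : ℝ) ≤ N := Real.rpow_le_rpow (by positivity) hnt (by norm_num)
          have h7 : (t ^ 14) ^ (4/7 : ℝ) = t ^ 8 := by
            rw [← Real.rpow_natCast, ← Real.rpow_natCast, ← Real.rpow_mul ht'.le]
            norm_num
          rw [h7] at h6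
          exact (pow_le_pow_right₀ ht (by norm_num)).trans h6
        have h8 : B ≤ B * (N / t ^ 2) := by nlinarith
        linarith
    rw [hemp, measureReal_empty]
    positivity
  -- the main case
  have ht2 : 2 ≤ t := ht02.trans htl
  have hβt : 1 ≤ β * t := by
    have : 1 / β ≤ t := ht0β.trans htl
    rw [div_le_iff₀ hβ0] at this
    linarith
  obtain ⟨ρ, hρ⟩ : ∃ ρ : ℤ, ρ = ⌈t * N⌉ := ⟨_, rfl⟩
  have hρ1 : t * N ≤ ρ := by rw [hρ]; exact Int.le_ceil _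
  have hρ2 : (ρ : ℝ) < t * N + 1 := by rw [hρ]; exact Int.ceil_lt_add_one _
  have htN : 2 ≤ t * N := by nlinarith
  have hρ3 : (1 : ℤ) ≤ ρ := by
    have : (1 : ℝ) ≤ ρ := by linarith
    exact_mod_cast this
  have ht28 : t ^ 2 ≤ t ^ 8 := pow_le_pow_right₀ ht (by norm_num)
  have hNt2 : 2 ≤ N / t ^ 2 := by
    rw [le_div_iff₀ (by positivity)]
    nlinarith [pow_pos ht' 8]
  obtain ⟨w, hw⟩ : ∃ w : ℤ, w = ⌊N / t ^ 2⌋ := ⟨_, rfl⟩
  have hw1 : (w : ℝ) ≤ N / t ^ 2 := by rw [hw]; exact Int.floor_le _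
  have hw2 : N / t ^ 2 < w + 1 := by rw [hw]; exact Int.lt_floor_add_one _
  have hw3 : N / (2 * t ^ 2) ≤ w := by
    have : N / (2 * t ^ 2) = N / t ^ 2 / 2 := by field_simp
    rw [this]
    linarith
  have hw0 : (0 : ℝ) < w := by linarith
  obtain ⟨K, hK⟩ : ∃ K : ℕ, K = ⌊β * t ^ 3⌋₊ := ⟨_, rfl⟩
  have hβt3 : 1 ≤ β * t ^ 3 := by
    have : t ≤ t ^ 3 := by
      calc t = t ^ 1 := (pow_one t).symm
        _ ≤ t ^ 3 := pow_le_pow_right₀ ht (by norm_num)
    nlinarith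
  have hK1 : 1 ≤ K := by
    rw [hK]
    exact (Nat.one_le_floor_iff _).2 hβt3
  have hK2 : (K : ℝ) ≤ β * t ^ 3 := by rw [hK]; exact Nat.floor_le (by positivity)
  have hK0 : (0 : ℝ) < K := by exact_mod_cast hK1
  -- conditions
  have e1 : C1 * (K : ℝ) ^ 2 ≤ w := by
    refine le_trans ?_ hw3
    rw [le_div_iff₀ (by positivity)]
    calc C1 * (K : ℝ) ^ 2 * (2 * t ^ 2) ≤ C1 * (β * t ^ 3) ^ 2 * (2 * t ^ 2) := by gcongr
      _ = (2 * C1 * β ^ 2) * t ^ 8 := by ring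
      _ ≤ G * t ^ 8 := by gcongr
      _ ≤ N := hNl
  have e2 : 2 * w ≤ ρ := by
    have : (2 * w : ℝ) ≤ ρ := by
      have h1 : N / t ^ 2 ≤ N / 2 := by
        apply div_le_div_of_nonneg_left hN0.le (by norm_num)
        nlinarith
      nlinarith
    exact_mod_cast this
  have hsc' := hsc (bx ρ) K w (2 * ρ) (bx_ok hρ3) hK1 e1 (by simpa [bx] using e2)
    (by simpa [bx] using e2) (by simpa [bx] using e2)
    (by simp only [bx]; push_cast; linarith)
    (by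
      simp only [bx]
      have : (0 : ℝ) ≤ ρ := by exact_mod_cast (by omega : (0 : ℤ) ≤ ρ)
      linarith)
  -- speed
  have hspeed : (n : ℝ) / t ^ 14 < c1 * ((w : ℝ) / (K : ℝ) ^ 2) ^ (7/4 : ℝ) := by
    have h1 : N / (2 * β ^ 2 * t ^ 8) ≤ (w : ℝ) / (K : ℝ) ^ 2 := by
      rw [div_le_div_iff₀ (by positivity) (by positivity)]
      rw [div_le_iff₀ (by positivity)] at hw3
      have h2 : (K : ℝ) ^ 2 ≤ (β * t ^ 3) ^ 2 := pow_le_pow_left₀ hK0.le hK2 2
      calc N * (K : ℝ) ^ 2 ≤ (w * (2 * t ^ 2)) * (β * t ^ 3) ^ 2 := by gcongr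
        _ = w * (2 * β ^ 2 * t ^ 8) := by ring
    have h2 : (N / (2 * β ^ 2 * t ^ 8)) ^ (7/4 : ℝ) ≤ ((w : ℝ) / (K : ℝ) ^ 2) ^ (7/4 : ℝ) :=
      Real.rpow_le_rpow (by positivity) h1 (by norm_num)
    have h3 : (N / (2 * β ^ 2 * t ^ 8)) ^ (7/4 : ℝ) = n / ((2 * β ^ 2) ^ (7/4 : ℝ) * t ^ 14) := by
      rw [Real.div_rpow hN0.le (by positivity), hN74, Real.mul_rpow (by positivity) (by positivity)]
      congr 2
      rw [← Real.rpow_natCast, ← Real.rpow_natCast, ← Real.rpow_mul ht'.le]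
      norm_num
    have h4 : (2 * β ^ 2) ^ (7/4 : ℝ) < c1 := by
      have h5 : (2 * β ^ 2) ^ (7/4 : ℝ) ≤ (2 * β ^ 2) ^ (1 : ℝ) :=
        Real.rpow_le_rpow_of_exponent_ge (by positivity) hβ1 (by norm_num)
      rw [Real.rpow_one] at h5
      linarith
    have h5 : 0 < (2 * β ^ 2) ^ (7/4 : ℝ) := by positivity
    calc (n : ℝ) / t ^ 14 < c1 * (n / ((2 * β ^ 2) ^ (7/4 : ℝ) * t ^ 14)) := by
          rw [mul_div_assoc', div_lt_div_iff₀ (by positivity) (by positivity)]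
          have h6 : 0 < (n : ℝ) * t ^ 14 := by positivity
          nlinarith
      _ ≤ _ := by
          rw [← h3]
          exact mul_le_mul_of_nonneg_left h2 hc1.le
  -- the union
  have hsub : {ω : Conf | Rough B t n ω} ⊆ {ω | (t / 2) * (n : ℝ) ^ (4/7 : ℝ) ≤ reach n ω} ∪
      {ω | (bx ρ).Fast w (c1 * ((w : ℝ) / (K : ℝ) ^ 2) ^ (7/4 : ℝ)) (cut ω ρ)} := by
    rintro ω ⟨k, l, hkl, hl, h1, h2⟩
    by_cases hS : Stay ρ n ω
    · right
      refine fast_of_path hρ3 hS hkl hl (lt_of_le_of_lt h1 hspeed) ?_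
      have h3 : dist (gam ω k) (gam ω l) ≤ 2 * ((sd (path ω k).1 (path ω l).1 : ℤ) : ℝ) + 1 :=
        dist_place_le _ _
      have h4 : (w : ℝ) ≤ ((sd (path ω k).1 (path ω l).1 : ℤ) : ℝ) := by
        have h5 : 4 * (N / t ^ 2) ≤ B * (N / t ^ 2) := by
          apply mul_le_mul_of_nonneg_right hB4
          positivity
        linarith
      exact_mod_cast h4
    · left
      obtain ⟨j, hj, h3, -⟩ := Trans_exit hS
      show t / 2 * N ≤ reach n ω
      have h4 : ‖gam ω j‖ ≤ reach n ω :=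
        Finset.le_sup' (fun k => ‖gam ω k‖) (Finset.mem_range.2 (by omega))
      have h5 := le_norm_place (path ω j)
      have h6 : (ρ : ℝ) ≤ ((sd (path ω j).1 (0, 0) : ℤ) : ℝ) := by exact_mod_cast h3
      have h7 : ‖gam ω j‖ = ‖place (path ω j)‖ := rfl
      rw [h7] at h4
      linarith
  refine (measureReal_mono hsub (measure_ne_top _ _)).trans ((measureReal_union_le _ _).trans ?_)
  rw [perc_cut ρ (fun F => (bx ρ).Fast w (c1 * ((w : ℝ) / (K : ℝ) ^ 2) ^ (7/4 : ℝ)) F)]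
  have h1 := hup n (t / 2) hn (by linarith)
  have h2 := tail_t ha ht
  have h3 : A * Real.exp (-(a * (t / 2) ^ (1/2 : ℝ))) ≤ A * (4 / a ^ 2) / t := by
    calc A * Real.exp (-(a * (t / 2) ^ (1/2 : ℝ))) ≤ A * (4 / a ^ 2 / t) :=
          mul_le_mul_of_nonneg_left h2 hA.le
      _ = _ := by ring
  have h4 : (2 * ρ : ℝ) / w ≤ 8 * t ^ 3 := by
    rw [div_le_iff₀ hw0]
    rw [div_le_iff₀ (by positivity)] at hw3
    have h5 : (2 * ρ : ℝ) ≤ 4 * (t * N) := by linarith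
    calc (2 * ρ : ℝ) ≤ 4 * (t * N) := h5
      _ ≤ 4 * (t * (w * (2 * t ^ 2))) := by gcongr
      _ = _ := by ring
  have h5 : C1 * ((2 * ρ : ℝ) / w) ^ 2 * (K : ℝ) ^ 4 * q ^ K ≤ C1 * 64 * β ^ 4 * B1 / t := by
    have h6 : 0 ≤ (2 * ρ : ℝ) / w := by
      have : (0 : ℝ) ≤ ρ := by exact_mod_cast (by omega : (0 : ℤ) ≤ ρ)
      positivity
    calc C1 * ((2 * ρ : ℝ) / w) ^ 2 * (K : ℝ) ^ 4 * q ^ K
        ≤ C1 * (8 * t ^ 3) ^ 2 * (β * t ^ 3) ^ 4 * q ^ K := by gcongr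
      _ = C1 * 64 * β ^ 4 * (t ^ 18 * q ^ K) := by ring
      _ ≤ C1 * 64 * β ^ 4 * (B1 / t) := by
          apply mul_le_mul_of_nonneg_left _ (by positivity)
          rw [hK]
          exact hgeo t ht
      _ = _ := by ring
  calc _ ≤ A * (4 / a ^ 2) / t + C1 * 64 * β ^ 4 * B1 / t := add_le_add (h1.trans h3) (hsc'.trans h5)
    _ = Q / t := by rw [hQ]; ring
    _ ≤ B / t := by gcongr

end Pool.Agent.Q218.DC
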