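import Pool.Agent.Q218.DC.Mix
import Pool.Agent.Q218.DC.Mod
import Pool.Agent.Q218.ZO.Law
import Pool.Agent.H984R4.HN.FinalH
import Pool.Agent.Results.MP_6c8efb_pr.Displacement

/-!
Decorrelation of the exploration path in the half-plane at different scales.
-/

set_option autoImplicit false

namespace Pool.Agent.Q218.DC

open H984H H974 Finset H342P H984P MeasureTheory Filter Topology
open Pool.Agent.Q218.ZO

/-- the edges of the box of radius `r` -/
def box (r : ℤ) : Set Edg := {e | sd (src e) (0, 0) ≤ r ∧ sd (tgt e) (0, 0) ≤ r}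

theorem agree_mix (r : ℤ) (ω ω' : Conf) : AgreeOff r ω (mix (box r) ω ω') :=
  fun e he => (mix_out (D := box r) (i := e) he).symm

/-- The piecewise linear curves of close sequences are close. -/
theorem pl_dist {N : ℕ} {p p' : ℕ → ℂ} {δ : ℝ} (hδ : 0 ≤ δ) (h : ∀ k ≤ N, dist (p k) (p' k) ≤ δ) :
    dist (H984N.pl N p) (H984N.pl N p') ≤ δ := by
  rw [ContinuousMap.dist_le hδ]
  intro s
  rcases Nat.eq_zero_or_pos N with rfl | hN
  · rw [H984N.pl_apply', H984N.pl_apply']
    simpa using h 0 le_rfl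
  · obtain ⟨k, hk, h1, h2⟩ := H984N.pl_exists_seg hN s
    rw [H984N.pl_seg hk h1 h2, H984N.pl_seg hk h1 h2]
    set u : ℝ := (s : ℝ) * N - k with hu
    have hu0 : 0 ≤ u := by linarith
    have hu1 : u ≤ 1 := by linarith
    have e : p k + (u : ℂ) * (p (k + 1) - p k) - (p' k + (u : ℂ) * (p' (k + 1) - p' k)) =
        ((1 - u : ℝ) : ℂ) * (p k - p' k) + (u : ℂ) * (p (k + 1) - p' (k + 1)) := by
      push_cast
      ring
    rw [dist_eq_norm, e]
    have h3 := h k hk.le
    have h4 := h (k + 1) hk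
    rw [dist_eq_norm] at h3 h4
    calc ‖((1 - u : ℝ) : ℂ) * (p k - p' k) + (u : ℂ) * (p (k + 1) - p' (k + 1))‖
        ≤ ‖((1 - u : ℝ) : ℂ) * (p k - p' k)‖ + ‖(u : ℂ) * (p (k + 1) - p' (k + 1))‖ := norm_add_le _ _
      _ = (1 - u) * ‖p k - p' k‖ + u * ‖p (k + 1) - p' (k + 1)‖ := by
          rw [norm_mul, norm_mul, Complex.norm_real, Complex.norm_real, Real.norm_of_nonneg hu0,
            Real.norm_of_nonneg (by linarith : (0:ℝ) ≤ 1 - u)]
      _ ≤ (1 - u) * δ + u * δ := by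
          apply add_le_add
          · exact mul_le_mul_of_nonneg_left h3 (by linarith)
          · exact mul_le_mul_of_nonneg_left h4 hu0
      _ = δ := by ring

/-- The two curves are close on the good event. -/
theorem close_of {B t : ℝ} {n T : ℕ} {r R : ℤ} {ω η : Conf} (hn : 1 ≤ n) (hB : 0 ≤ B) (ht : 1 ≤ t)
    (hr : 0 ≤ r) (hrR : r < R) (hT : (T : ℝ) ≤ n / t ^ 14) (hTn : T ≤ n)
    (hag : AgreeOff r ω η) (hS : ∀ v ∈ Ret_S ω r, sd v (0, 0) < R)
    (h1 : ¬ Stay R T ω) (h2 : ¬ Stay R T η) (h3 : ¬ Rough B t n ω) (h4 : ¬ Rough B t n η) :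
    dist (curve n ω) (curve n η) ≤ 2 * B / t ^ 2 := by
  have ht0 : 0 < t := by linarith
  have hn0 : (0 : ℝ) < n := by exact_mod_cast hn
  set N : ℝ := (n : ℝ) ^ (4/7 : ℝ) with hN
  have hN0 : 0 < N := by positivity
  obtain ⟨a, b, hab, ha, hb⟩ := coincide hr hrR hS hag
  have haT : a ≤ T := by
    by_contra hcon
    exact h1 fun j hj => ha j (by omega)
  have hbT : b ≤ T := by
    by_contra hcon
    exact h2 fun j hj => hb j (by omega)
  have mod : ∀ {ζ : Conf}, ¬ Rough B t n ζ → ∀ k l : ℕ, k ≤ l → l ≤ n → l - k ≤ T →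
      dist (gam ζ k) (gam ζ l) ≤ B * (N / t ^ 2) := by
    intro ζ hζ k l hkl hl hlT
    by_contra hcon
    refine hζ ⟨k, l, hkl, hl, ?_, (not_le.1 hcon).le⟩
    refine le_trans ?_ hT
    exact_mod_cast hlT
  have hgab : ∀ j, gam ω (a + j) = gam η (b + j) := fun j => by
    unfold gam
    rw [hab j]
  have hBN : 0 ≤ B * (N / t ^ 2) := by positivity
  have key : ∀ k ≤ n, dist (gam ω k) (gam η k) ≤ 2 * (B * (N / t ^ 2)) := by
    intro k hk
    rcases lt_or_ge k (max a b) with hkm | hkm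
    · have hkT : k ≤ T := hkm.le.trans (max_le haT hbT)
      have e1 := mod h3 0 k (Nat.zero_le _) hk (by omega)
      have e2 := mod h4 0 k (Nat.zero_le _) hk (by omega)
      have e3 : gam ω 0 = gam η 0 := rfl
      rw [dist_comm] at e1
      rw [← e3] at e2
      have := dist_triangle (gam ω k) (gam ω 0) (gam η k)
      linarith
    · rw [max_le_iff] at hkm
      rcases le_total a b with h | h
      · have e1 : gam η k = gam ω (k - (b - a)) := by
          have := hgab (k - b)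
          rw [show b + (k - b) = k by omega, show a + (k - b) = k - (b - a) by omega] at this
          exact this.symm
        have e2 := mod h3 (k - (b - a)) k (by omega) hk (by omega)
        rw [e1, dist_comm]
        linarith
      · have e1 : gam ω k = gam η (k - (a - b)) := by
          have := hgab (k - a)
          rw [show a + (k - a) = k by omega, show b + (k - a) = k - (a - b) by omega] at this
          exact this
        have e2 := mod h4 (k - (a - b)) k (by omega) hk (by omega)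
        rw [e1]
        linarith
  have h10 : (n : ℝ) ^ (-(4/7) : ℝ) = N⁻¹ := Real.rpow_neg hn0.le _
  unfold curve
  refine pl_dist (by positivity) fun k hk => ?_
  rw [dist_eq_norm, ← mul_sub, norm_mul, Complex.norm_real, Real.norm_eq_abs, h10,
    abs_of_nonneg (by positivity), ← dist_eq_norm]
  calc N⁻¹ * dist (gam ω k) (gam η k) ≤ N⁻¹ * (2 * (B * (N / t ^ 2))) :=
        mul_le_mul_of_nonneg_left (key k hk) (by positivity)
    _ = 2 * B / t ^ 2 := by
        field_simp

theorem prod_fst_le {s : Set Conf} : (perc.prod perc).real {p | p.1 ∈ s} ≤ perc.real s := by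
  rw [measureReal_def, measureReal_def]
  apply ENNReal.toReal_mono (measure_ne_top _ _)
  have h := Measure.le_map_apply (μ := perc.prod perc) (f := Prod.fst)
    measurable_fst.aemeasurable s
  refine h.trans (le_of_eq ?_)
  rw [Measure.map_fst_prod]
  simp

theorem prod_mix_le (D : Set Edg) {s : Set Conf} :
    (perc.prod perc).real {p | mix D p.1 p.2 ∈ s} ≤ perc.real s := by
  rw [measureReal_def, measureReal_def]
  apply ENNReal.toReal_mono (measure_ne_top _ _)
  have h := Measure.le_map_apply (μ := perc.prod perc)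
    (f := fun p : Conf × Conf => mix D p.1 p.2) (mix_meas D).aemeasurable s
  refine h.trans (le_of_eq ?_)
  have := (mix_mp (fun _ : Edg => (PMF.uniformOfFintype Bool).toMeasure) D).map_eq
  unfold perc
  rw [this]

/-- **The main estimate.** The path up to time `m` is in the box of radius `r` and the rescaled path
up to time `n` is almost the same after resampling of this box. -/
theorem main : ∃ C c : ℝ, 0 < C ∧ 0 < c ∧ ∀ m n : ℕ, 1 ≤ m → m ≤ n → ∃ r : ℕ, 
    perc.real {ω | ¬ Stay r m ω} ≤ C * ((m : ℝ) / n) ^ c ∧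
    (perc.prod perc).real {p : Conf × Conf | C * ((m : ℝ) / n) ^ c <
      dist (curve n p.1) (curve n (mix (box r) p.1 p.2))} ≤ C * ((m : ℝ) / n) ^ c := by
  obtain ⟨⟨c0, hc0, hL⟩, ⟨C0, hC0, hU⟩, -⟩ := Results.MP_6c8efb_pr.Displacement.inputs
  obtain ⟨B, hB, hrough⟩ := rough_prob hc0 hC0 hL hU
  obtain ⟨a, A, ha, hA, hup⟩ := tail_up hc0 hC0 hL hU
  obtain ⟨A', hA', hlow⟩ := tail_low hC0 hU
  obtain ⟨s, S, hs, hS0, hSp⟩ := S_prob
  set e : ℝ := min 1 s with he
  have he0 : 0 < e := by positivity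
  have he1 : e ≤ 1 := min_le_left _ _
  have hes : e ≤ s := min_le_right _ _
  set C : ℝ := 2 * B + A * (4 / a ^ 2) + (S * (2 : ℝ) ^ s + 2 * (A' * (16 : ℝ) ^ (7/4 : ℝ)) + 2 * B) with hC
  have hCpos : 0 < C := by positivity
  refine ⟨C, e / 28, hCpos, by positivity, fun m n hm hmn => ?_⟩
  have hm0 : (0 : ℝ) < m := by exact_mod_cast hm
  have hm1 : (1 : ℝ) ≤ m := by exact_mod_cast hm
  have hn1 : (1 : ℝ) ≤ n := by exact_mod_cast hm.trans hmn
  have hn0 : (0 : ℝ) < n := by linarith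
  have hmnr : (m : ℝ) ≤ n := by exact_mod_cast hmn
  -- `x`
  obtain ⟨x, hx⟩ : ∃ x : ℝ, x = ((n : ℝ) / m) ^ (1/28 : ℝ) := ⟨_, rfl⟩
  have hx1 : 1 ≤ x := by
    rw [hx]
    apply Real.one_le_rpow _ (by norm_num)
    rw [le_div_iff₀ hm0]
    linarith
  have hx0 : 0 < x := by linarith
  have hx28 : x ^ 28 = (n : ℝ) / m := by
    rw [hx, ← Real.rpow_natCast, ← Real.rpow_mul (by positivity)]
    norm_num
  have hn28 : (n : ℝ) = m * x ^ 28 := by
    rw [hx28]
    field_simp
  have hpow : ((m : ℝ) / n) ^ (e / 28) = 1 / x ^ e := by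
    rw [hx, ← Real.rpow_mul (by positivity), show (1/28 : ℝ) * e = e / 28 by ring,
      ← Real.one_rpow (e / 28), ← Real.div_rpow (by norm_num) (by positivity), one_div_div]
  rw [hpow]
  -- powers of `x`
  have hxe : ∀ y : ℝ, e ≤ y → 1 / x ^ y ≤ 1 / x ^ e := by
    intro y hy
    apply one_div_le_one_div_of_le (by positivity)
    exact Real.rpow_le_rpow_of_exponent_le hx1 hy
  have hx1e : 1 / x ≤ 1 / x ^ e := by
    have := hxe 1 he1
    rwa [Real.rpow_one] at this
  set M : ℝ := (m : ℝ) ^ (4/7 : ℝ) with hM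
  have hM1 : 1 ≤ M := Real.one_le_rpow hm1 (by norm_num)
  have hM0 : 0 < M := by linarith
  obtain ⟨r, hr⟩ : ∃ r : ℕ, r = ⌈x ^ 2 * M⌉₊ := ⟨_, rfl⟩
  have hr1 : x ^ 2 * M ≤ r := by rw [hr]; exact Nat.le_ceil _
  have hr2 : (r : ℝ) < x ^ 2 * M + 1 := by rw [hr]; exact Nat.ceil_lt_add_one (by positivity)
  have hx2M : 1 ≤ x ^ 2 * M := by
    have : 1 ≤ x ^ 2 := one_le_pow₀ hx1
    nlinarith
  have hr3 : (r : ℝ) ≤ 2 * (x ^ 2 * M) := by linarith
  have hr4 : 1 ≤ r := by
    have : (1 : ℝ) ≤ r := by linarith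
    exact_mod_cast this
  refine ⟨r, ?_, ?_⟩
  · -- the path up to time `m`
    have hsub : {ω : Conf | ¬ Stay (r : ℤ) m ω} ⊆
        {ω | (x ^ 2 / 2) * (m : ℝ) ^ (4/7 : ℝ) ≤ reach m ω} := by
      intro ω hω
      obtain ⟨j, hj, h3, -⟩ := Trans_exit hω
      show x ^ 2 / 2 * M ≤ reach m ω
      have h4 : ‖gam ω j‖ ≤ reach m ω :=
        Finset.le_sup' (fun k => ‖gam ω k‖) (Finset.mem_range.2 (by omega))
      have h5 := le_norm_place (path ω j)
      have h6 : (r : ℝ) ≤ ((sd (path ω j).1 (0, 0) : ℤ) : ℝ) := by exact_mod_cast h3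
      have h7 : ‖gam ω j‖ = ‖place (path ω j)‖ := rfl
      rw [h7] at h4
      linarith
    refine (measureReal_mono hsub (measure_ne_top _ _)).trans ?_
    refine (hup m (x ^ 2 / 2) hm (by positivity)).trans ?_
    have h1 := tail_t ha (t := x ^ 2) (one_le_pow₀ hx1)
    calc A * Real.exp (-(a * (x ^ 2 / 2) ^ (1/2 : ℝ))) ≤ A * (4 / a ^ 2 / x ^ 2) :=
          mul_le_mul_of_nonneg_left h1 hA.le
      _ = A * (4 / a ^ 2) * (1 / x ^ (2 : ℝ)) := by
          rw [Real.rpow_two]
          ring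
      _ ≤ A * (4 / a ^ 2) * (1 / x ^ e) :=
          mul_le_mul_of_nonneg_left (hxe 2 (by linarith)) (by positivity)
      _ ≤ C * (1 / x ^ e) := by
          apply mul_le_mul_of_nonneg_right _ (by positivity)
          have : 0 ≤ S * (2 : ℝ) ^ s + 2 * (A' * (16 : ℝ) ^ (7/4 : ℝ)) + 2 * B := by positivity
          rw [hC]
          linarith
  · -- the two curves
    obtain ⟨R, hR⟩ : ∃ R : ℕ, R = r + ⌈x ^ 4 * M⌉₊ := ⟨_, rfl⟩
    have hx24 : x ^ 2 ≤ x ^ 4 := pow_le_pow_right₀ hx1 (by norm_num)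
    have hx4M : 1 ≤ x ^ 4 * M := by nlinarith
    have hc1 : x ^ 4 * M ≤ (⌈x ^ 4 * M⌉₊ : ℝ) := Nat.le_ceil _
    have hc2 : (⌈x ^ 4 * M⌉₊ : ℝ) < x ^ 4 * M + 1 := Nat.ceil_lt_add_one (by positivity)
    have hRr : (R : ℝ) = r + (⌈x ^ 4 * M⌉₊ : ℝ) := by rw [hR]; push_cast; ring
    have hR1 : x ^ 4 * M ≤ R := by
      rw [hRr]
      have : (0 : ℝ) ≤ r := by positivity
      linarith
    have hR2 : (R : ℝ) ≤ 4 * (x ^ 4 * M) := by
      rw [hRr]
      nlinarith
    have hrR : r < R := by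
      have : (r : ℝ) < R := by
        rw [hRr]
        linarith
      exact_mod_cast this
    have hR0 : (0 : ℝ) < R := by linarith
    obtain ⟨T, hT⟩ : ∃ T : ℕ, T = ⌊(n : ℝ) / x ^ 14⌋₊ := ⟨_, rfl⟩
    have hn14 : (n : ℝ) / x ^ 14 = m * x ^ 14 := by
      rw [div_eq_iff (by positivity), hn28]
      ring
    have hT1 : (T : ℝ) ≤ n / x ^ 14 := by rw [hT]; exact Nat.floor_le (by positivity)
    have hT2 : (n : ℝ) / x ^ 14 < T + 1 := by rw [hT]; exact Nat.lt_floor_add_one _
    have hx14 : 1 ≤ x ^ 14 := one_le_pow₀ hx1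
    have hT3 : 1 ≤ (n : ℝ) / x ^ 14 := by
      rw [hn14]
      nlinarith
    have hT4 : 1 ≤ T := by
      rw [hT]
      exact (Nat.one_le_floor_iff _).2 hT3
    have hT4' : (1 : ℝ) ≤ T := by exact_mod_cast hT4
    have hT5 : T ≤ n := by
      have : (T : ℝ) ≤ n := hT1.trans (div_le_self hn0.le hx14)
      exact_mod_cast this
    have hT6 : m * x ^ 14 / 2 ≤ (T : ℝ) := by
      rw [← hn14]
      linarith
    have hT7 : M * x ^ 8 / 2 ≤ (T : ℝ) ^ (4/7 : ℝ) := by
      have h1 : (m * x ^ 14 / 2) ^ (4/7 : ℝ) ≤ (T : ℝ) ^ (4/7 : ℝ) :=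
        Real.rpow_le_rpow (by positivity) hT6 (by norm_num)
      refine le_trans ?_ h1
      rw [Real.div_rpow (by positivity) (by norm_num), Real.mul_rpow hm0.le (by positivity)]
      have h2 : (x ^ 14) ^ (4/7 : ℝ) = x ^ 8 := by
        rw [← Real.rpow_natCast, ← Real.rpow_natCast, ← Real.rpow_mul hx0.le]
        norm_num
      have h3 : (2 : ℝ) ^ (4/7 : ℝ) ≤ 2 := by
        have : (2 : ℝ) ^ (4/7 : ℝ) ≤ (2 : ℝ) ^ (1 : ℝ) :=
          Real.rpow_le_rpow_of_exponent_le (by norm_num) (by norm_num)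
        rwa [Real.rpow_one] at this
      rw [h2]
      exact div_le_div_of_nonneg_left (by positivity) (by positivity) h3
    have hstay : perc.real {ω | Stay (R : ℤ) T ω} ≤ A' * (16 : ℝ) ^ (7/4 : ℝ) * (1 / x ^ e) := by
      have hsub : {ω : Conf | Stay (R : ℤ) T ω} ⊆
          {ω | reach T ω ≤ (16 / x ^ 4) * (T : ℝ) ^ (4/7 : ℝ)} := by
        intro ω hω
        have h1 := TailUp_reach hω (R := 2 * (R : ℝ)) (by push_cast; exact le_rfl)
        show reach T ω ≤ _
        refine h1.le.trans ?_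
        have h2 : 2 * (R : ℝ) ≤ (16 / x ^ 4) * (M * x ^ 8 / 2) := by
          have h3 : (16 / x ^ 4) * (M * x ^ 8 / 2) = 8 * (x ^ 4 * M) := by
            field_simp
            ring
          rw [h3]
          linarith
        exact h2.trans (mul_le_mul_of_nonneg_left hT7 (by positivity))
      refine (measureReal_mono hsub (measure_ne_top _ _)).trans ?_
      refine (hlow T (16 / x ^ 4) hT4 (by positivity)).trans ?_
      rw [Real.div_rpow (by norm_num) (by positivity)]
      have h4 : (x ^ 4) ^ (7/4 : ℝ) = x ^ (7 : ℝ) := by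
        rw [← Real.rpow_natCast, ← Real.rpow_mul hx0.le]
        norm_num
      rw [h4]
      calc A' * ((16 : ℝ) ^ (7/4 : ℝ) / x ^ (7 : ℝ)) = A' * (16 : ℝ) ^ (7/4 : ℝ) * (1 / x ^ (7 : ℝ)) := by
            ring
        _ ≤ _ := mul_le_mul_of_nonneg_left (hxe 7 (by linarith)) (by positivity)
    have hSS : perc.real {ω | ¬ ∀ v ∈ Ret_S ω (r : ℤ), sd v (0, 0) < (R : ℤ)} ≤
        S * (2 : ℝ) ^ s * (1 / x ^ e) := by
      refine (hSp r R hr4 hrR).trans ?_
      have h1 : (r : ℝ) / R ≤ 2 / x ^ 2 := by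
        rw [div_le_div_iff₀ hR0 (by positivity)]
        calc (r : ℝ) * x ^ 2 ≤ 2 * (x ^ 2 * M) * x ^ 2 := by gcongr
          _ = 2 * (x ^ 4 * M) := by ring
          _ ≤ 2 * R := by linarith
      have h2 : ((r : ℝ) / R) ^ s ≤ (2 / x ^ 2) ^ s := Real.rpow_le_rpow (by positivity) h1 hs.le
      have h3 : (2 / x ^ 2) ^ s = (2 : ℝ) ^ s * (1 / x ^ (2 * s)) := by
        rw [Real.div_rpow (by norm_num) (by positivity), ← Real.rpow_natCast, ← Real.rpow_mul hx0.le]
        push_cast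
        ring
      rw [h3] at h2
      calc S * ((r : ℝ) / R) ^ s ≤ S * ((2 : ℝ) ^ s * (1 / x ^ (2 * s))) :=
            mul_le_mul_of_nonneg_left h2 hS0.le
        _ = S * (2 : ℝ) ^ s * (1 / x ^ (2 * s)) := by ring
        _ ≤ _ := mul_le_mul_of_nonneg_left (hxe _ (by linarith)) (by positivity)
    have hrg : perc.real {ω | Rough B x n ω} ≤ B * (1 / x ^ e) := by
      refine (hrough n x (hm.trans hmn) hx1).trans ?_
      rw [div_eq_mul_one_div]
      exact mul_le_mul_of_nonneg_left hx1e (by linarith)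
    have hsub : {p : Conf × Conf | C * (1 / x ^ e) <
        dist (curve n p.1) (curve n (mix (box r) p.1 p.2))} ⊆
        {p | p.1 ∈ {ω | ¬ ∀ v ∈ Ret_S ω (r : ℤ), sd v (0, 0) < (R : ℤ)}} ∪
        ({p | p.1 ∈ {ω | Stay (R : ℤ) T ω}} ∪ ({p | mix (box r) p.1 p.2 ∈ {ω | Stay (R : ℤ) T ω}} ∪
        ({p | p.1 ∈ {ω | Rough B x n ω}} ∪ {p | mix (box r) p.1 p.2 ∈ {ω | Rough B x n ω}}))) := by
      intro p hp
      by_contra hcon
      simp only [Set.mem_union, Set.mem_ofPred_eq, not_or, not_not] at hcon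
      obtain ⟨g1, g2, g3, g4, g5⟩ := hcon
      have h1 := close_of (hm.trans hmn) (by linarith : 0 ≤ B) hx1
        (by positivity : (0 : ℤ) ≤ r) (by exact_mod_cast hrR) hT1 hT5 (agree_mix r p.1 p.2) g1 g2 g3 g4 g5
      have h2 : 2 * B / x ^ 2 ≤ C * (1 / x ^ e) := by
        calc 2 * B / x ^ 2 = 2 * B * (1 / x ^ (2 : ℝ)) := by
              rw [Real.rpow_two]; ring
          _ ≤ 2 * B * (1 / x ^ e) := mul_le_mul_of_nonneg_left (hxe 2 (by linarith)) (by linarith)
          _ ≤ C * (1 / x ^ e) := by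
              apply mul_le_mul_of_nonneg_right _ (by positivity)
              have : 0 ≤ A * (4 / a ^ 2) + (S * (2 : ℝ) ^ s + 2 * (A' * (16 : ℝ) ^ (7/4 : ℝ)) + 2 * B) := by
                positivity
              rw [hC]
              linarith
      have hp' : C * (1 / x ^ e) < dist (curve n p.1) (curve n (mix (box r) p.1 p.2)) := hp
      linarith
    refine (measureReal_mono hsub (measure_ne_top _ _)).trans ?_
    have u1 := prod_fst_le (s := {ω | ¬ ∀ v ∈ Ret_S ω (r : ℤ), sd v (0, 0) < (R : ℤ)})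
    have u2 := prod_fst_le (s := {ω | Stay (R : ℤ) T ω})
    have u3 := prod_mix_le (box r) (s := {ω | Stay (R : ℤ) T ω})
    have u4 := prod_fst_le (s := {ω | Rough B x n ω})
    have u5 := prod_mix_le (box r) (s := {ω | Rough B x n ω})
    refine (measureReal_union_le _ _).trans ?_
    refine (add_le_add le_rfl (measureReal_union_le _ _)).trans ?_
    refine (add_le_add le_rfl (add_le_add le_rfl (measureReal_union_le _ _))).trans ?_
    refine (add_le_add le_rfl (add_le_add le_rfl (add_le_add le_rfl (measureReal_union_le _ _)))).trans ?_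
    have hxe0 : 0 < 1 / x ^ e := by positivity
    have h1 : S * (2 : ℝ) ^ s * (1 / x ^ e) + (A' * (16 : ℝ) ^ (7/4 : ℝ) * (1 / x ^ e) +
        (A' * (16 : ℝ) ^ (7/4 : ℝ) * (1 / x ^ e) + (B * (1 / x ^ e) + B * (1 / x ^ e)))) ≤
        C * (1 / x ^ e) := by
      have h2 : 0 ≤ (2 * B + A * (4 / a ^ 2)) * (1 / x ^ e) := by positivity
      rw [hC]
      linarith
    linarith

end Pool.Agent.Q218.DC
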