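import Mathlib

/-!
Almost sure logarithmic averages for all bounded continuous functions at the same time.
-/

set_option autoImplicit false

namespace Pool.Agent.Q218.DC

open MeasureTheory Filter Topology Finset

section approx

variable {E : Type*} [PseudoMetricSpace E] [TopologicalSpace.SeparableSpace E] [Nonempty E]

/-- the dense sequence -/
noncomputable abbrev dn (i : ℕ) : E := TopologicalSpace.denseSeq E i

/-- minimum of finitely many cones -/
noncomputable def vf (l : List (ℕ × ℚ)) (L G : ℕ) (x : E) : ℝ :=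
  l.foldr (fun p acc => min acc ((p.2 : ℝ) + L * dist x (dn p.1))) (G : ℝ)

/-- a countable family of Lipschitz functions -/
noncomputable def uf (l : List (ℕ × ℚ)) (L G : ℕ) (x : E) : ℝ := max (-(G : ℝ)) (vf l L G x)

theorem vf_le_G (l : List (ℕ × ℚ)) (L G : ℕ) (x : E) : vf l L G x ≤ G := by
  induction l with
  | nil => exact le_rfl
  | cons p l ih => exact (min_le_left _ _).trans ih

theorem vf_le {l : List (ℕ × ℚ)} (L G : ℕ) (x : E) {p : ℕ × ℚ} (hp : p ∈ l) :
    vf l L G x ≤ (p.2 : ℝ) + L * dist x (dn p.1) := by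
  induction l with
  | nil => simp at hp
  | cons p' l ih =>
    rcases List.mem_cons.1 hp with h | h
    · rw [h]
      exact min_le_right _ _
    · exact (min_le_left _ _).trans (ih h)

theorem le_vf {l : List (ℕ × ℚ)} (L G : ℕ) (x : E) {b : ℝ} (hb : b ≤ G)
    (h : ∀ p ∈ l, b ≤ (p.2 : ℝ) + L * dist x (dn p.1)) : b ≤ vf l L G x := by
  induction l with
  | nil => exact hb
  | cons p l ih =>
    exact le_min (ih fun p' hp' => h p' (List.mem_cons_of_mem _ hp')) (h p List.mem_cons_self)

theorem vf_lip (l : List (ℕ × ℚ)) (L G : ℕ) (x y : E) :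
    |vf l L G x - vf l L G y| ≤ L * dist x y := by
  induction l with
  | nil =>
    show |(G : ℝ) - G| ≤ _
    rw [sub_self, abs_zero]
    positivity
  | cons p l ih =>
    show |min (vf l L G x) ((p.2 : ℝ) + L * dist x (dn p.1)) -
      min (vf l L G y) ((p.2 : ℝ) + L * dist y (dn p.1))| ≤ _
    refine (abs_min_sub_min_le_max _ _ _ _).trans (max_le ih ?_)
    have h1 := abs_dist_sub_le x y (dn p.1)
    have h2 : (p.2 : ℝ) + L * dist x (dn p.1) - ((p.2 : ℝ) + L * dist y (dn p.1)) =
        L * (dist x (dn p.1) - dist y (dn p.1)) := by ring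
    rw [h2, abs_mul, abs_of_nonneg (by positivity : (0 : ℝ) ≤ L)]
    exact mul_le_mul_of_nonneg_left h1 (by positivity)

theorem uf_lip (l : List (ℕ × ℚ)) (L G : ℕ) (x y : E) :
    |uf l L G x - uf l L G y| ≤ L * dist x y := by
  unfold uf
  refine (abs_max_sub_max_le_max _ _ _ _).trans (max_le ?_ (vf_lip l L G x y))
  rw [sub_self, abs_zero]
  positivity

theorem uf_abs (l : List (ℕ × ℚ)) (L G : ℕ) (x : E) : |uf l L G x| ≤ G := by
  unfold uf
  rw [abs_le]
  refine ⟨le_max_left _ _, max_le ?_ (vf_le_G _ _ _ _)⟩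
  have : (0 : ℝ) ≤ G := by positivity
  linarith

theorem approx {K : Set E} (hK : IsCompact K) {g : E → ℝ} (hg : Continuous g) {G : ℕ}
    (hG : ∀ x, |g x| ≤ G) {ε : ℝ} (hε : 0 < ε) :
    ∃ (l : List (ℕ × ℚ)) (L : ℕ) (δ : ℝ), 0 < δ ∧
      ∀ x, (∃ y ∈ K, dist x y < δ) → |g x - uf l L G x| ≤ ε := by
  obtain ⟨δ1, hδ1, hleb⟩ := lebesgue_number_lemma_of_metric (s := K)
    (c := fun y : E => {x | |g x - g y| < ε / 8}) hK
    (fun y => isOpen_lt (by fun_prop) continuous_const)
    (fun y _ => Set.mem_iUnion.2 ⟨y, by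
      show |g y - g y| < ε / 8
      rw [sub_self, abs_zero]
      positivity⟩)
  have hun : ∀ y ∈ K, ∀ z, dist z y < δ1 → |g z - g y| < ε / 4 := by
    intro y hy z hz
    obtain ⟨w, hw⟩ := hleb y hy
    have h1 : |g z - g w| < ε / 8 := hw (Metric.mem_ball.2 hz)
    have h2 : |g y - g w| < ε / 8 := hw (Metric.mem_ball_self hδ1)
    rw [abs_lt] at h1 h2 ⊢
    constructor <;> linarith
  obtain ⟨L, hL⟩ := exists_nat_ge ((2 * (G : ℝ) + ε) / (δ1 / 2))
  rw [div_le_iff₀ (by positivity)] at hL
  set δ : ℝ := min (δ1 / 4) (ε / (8 * (L + 1))) with hδ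
  have hδ0 : 0 < δ := by positivity
  have hδa : δ ≤ δ1 / 4 := min_le_left _ _
  have hδb : (L : ℝ) * δ ≤ ε / 8 := by
    have h1 : δ ≤ ε / (8 * (L + 1)) := min_le_right _ _
    rw [le_div_iff₀ (by positivity)] at h1
    nlinarith
  obtain ⟨t, htK, htf, hcov⟩ := hK.finite_cover_balls hδ0
  have hdn : ∀ y : E, ∃ i : ℕ, dist y (dn i) < δ := by
    intro y
    have := (TopologicalSpace.denseRange_denseSeq E).exists_dist_lt y hδ0
    exact this
  choose i hi using hdn
  have hq : ∀ y : E, ∃ q : ℚ, g y - ε / 8 < q ∧ (q : ℝ) < g y + ε / 8 := by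
    intro y
    obtain ⟨q, h1, h2⟩ := exists_rat_btwn (show g y - ε / 8 < g y + ε / 8 by linarith)
    exact ⟨q, h1, h2⟩
  choose q hq1 hq2 using hq
  refine ⟨htf.toFinset.toList.map (fun y => (i y, q y)), L, δ, hδ0, ?_⟩
  rintro x ⟨y0, hy0, hx0⟩
  have hup : vf (htf.toFinset.toList.map (fun y => (i y, q y))) L G x ≤ g x + 3 * ε / 4 := by
    have h1 := hcov hy0
    rw [Set.mem_iUnion₂] at h1
    obtain ⟨y, hy, h2⟩ := h1
    rw [Metric.mem_ball] at h2
    have h3 := vf_le L G x (l := htf.toFinset.toList.map (fun y => (i y, q y))) (p := (i y, q y))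
      (List.mem_map.2 ⟨y, Finset.mem_toList.2 (htf.mem_toFinset.2 hy), rfl⟩)
    simp only at h3
    have h4 : dist x y < 2 * δ := by
      have := dist_triangle x y0 y
      linarith
    have h5 : dist x (dn (i y)) < 3 * δ := by
      have := dist_triangle x y (dn (i y))
      have := hi y
      linarith
    have h6 := hun y (htK hy) x (by linarith)
    rw [abs_lt] at h6
    have h7 : (L : ℝ) * dist x (dn (i y)) ≤ L * (3 * δ) :=
      mul_le_mul_of_nonneg_left h5.le (by positivity)
    have := hq2 y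
    linarith
  have hlow : g x - ε ≤ vf (htf.toFinset.toList.map (fun y => (i y, q y))) L G x := by
    have hGx := abs_le.1 (hG x)
    apply le_vf
    · linarith
    · intro p hp
      obtain ⟨y, hy, rfl⟩ := List.mem_map.1 hp
      have hy' : y ∈ t := htf.mem_toFinset.1 (Finset.mem_toList.1 hy)
      simp only
      have hGy := abs_le.1 (hG y)
      have h1 := hq1 y
      have h0 : 0 ≤ (L : ℝ) * dist x (dn (i y)) := by positivity
      rcases lt_or_ge (dist x y) δ1 with h | h
      · have h6 := hun y (htK hy') x h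
        rw [abs_lt] at h6
        linarith
      · have h5 : δ1 / 2 ≤ dist x (dn (i y)) := by
          have h7 := dist_triangle x (dn (i y)) y
          have h8 := hi y
          rw [dist_comm] at h8
          linarith
        have h7 : (L : ℝ) * (δ1 / 2) ≤ L * dist x (dn (i y)) :=
          mul_le_mul_of_nonneg_left h5 (by positivity)
        linarith
  have hGx := abs_le.1 (hG x)
  unfold uf
  rw [abs_le]
  have h1 : max (-(G : ℝ)) (vf (htf.toFinset.toList.map (fun y => (i y, q y))) L G x) ≤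
      g x + 3 * ε / 4 := max_le (by linarith) hup
  have h2 : g x - ε ≤ max (-(G : ℝ)) (vf (htf.toFinset.toList.map (fun y => (i y, q y))) L G x) :=
    hlow.trans (le_max_right _ _)
  constructor <;> linarith

end approx

section sim

variable {Ω : Type*} [MeasurableSpace Ω] (P : Measure Ω) [IsProbabilityMeasure P]
variable {E : Type*} [MetricSpace E] [TopologicalSpace.SeparableSpace E] [Nonempty E]
  [MeasurableSpace E] [BorelSpace E]

/-- the centred logarithmic average -/
noncomputable def lav (Y : ℕ → Ω → E) (g : E → ℝ) (N : ℕ) (ω : Ω) : ℝ :=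
  (∑ n ∈ Icc 1 N, 1 / (n : ℝ) * (g (Y n ω) - ∫ ω', g (Y n ω') ∂P)) / Real.log N

theorem lav_smul (Y : ℕ → Ω → E) (g : E → ℝ) (a : ℝ) (N : ℕ) (ω : Ω) :
    lav P Y (fun x => a * g x) N ω = a * lav P Y g N ω := by
  unfold lav
  rw [mul_div_assoc', Finset.mul_sum]
  congr 1
  apply Finset.sum_congr rfl
  intro n _
  rw [integral_const_mul]
  ring

theorem sim {Y : ℕ → Ω → E} (mY : ∀ n, Measurable (Y n))
    (hL : ∀ g : E → ℝ, (∀ x, |g x| ≤ 1) → (∀ x y, |g x - g y| ≤ dist x y) →
      ∀ᵐ ω ∂P, Tendsto (fun N => lav P Y g N ω) atTop (𝓝 0))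
    (hT : ∀ ε : ℝ, 0 < ε → ∃ K : Set E, IsCompact K ∧ ∀ n, 1 ≤ n → P.real {ω | Y n ω ∉ K} ≤ ε) :
    ∀ᵐ ω ∂P, ∀ g : E → ℝ, Continuous g → (∃ G : ℝ, ∀ x, |g x| ≤ G) →
      Tendsto (fun N => lav P Y g N ω) atTop (𝓝 0) := by
  -- Lipschitz functions
  have hL' : ∀ (g : E → ℝ) (a : ℝ), 0 < a → (∀ x, |g x| ≤ a) → (∀ x y, |g x - g y| ≤ a * dist x y) →
      ∀ᵐ ω ∂P, Tendsto (fun N => lav P Y g N ω) atTop (𝓝 0) := by
    intro g a ha h1 h2
    have h3 := hL (fun x => a⁻¹ * g x) (fun x => by
      rw [abs_mul, abs_of_pos (inv_pos.2 ha), inv_mul_le_iff₀ ha, mul_one]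
      exact h1 x) (fun x y => by
      rw [← mul_sub, abs_mul, abs_of_pos (inv_pos.2 ha), inv_mul_le_iff₀ ha]
      exact h2 x y)
    filter_upwards [h3] with ω hω
    have h4 := hω.const_mul a
    rw [mul_zero] at h4
    refine h4.congr fun N => ?_
    rw [lav_smul, ← mul_assoc, mul_inv_cancel₀ ha.ne', one_mul]
  have hx0 : Nonempty E := inferInstance
  obtain ⟨x0⟩ := hx0
  -- the compact sets
  have hT' : ∀ j : ℕ, ∃ K : Set E, IsCompact K ∧ K.Nonempty ∧
      ∀ n, 1 ≤ n → P.real {ω | Y n ω ∉ K} ≤ 1 / ((j : ℝ) + 1) := by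
    intro j
    obtain ⟨K, hK, h⟩ := hT (1 / ((j : ℝ) + 1)) (by positivity)
    refine ⟨K ∪ {x0}, hK.union isCompact_singleton, ⟨x0, Or.inr rfl⟩, fun n hn => ?_⟩
    refine (measureReal_mono ?_ (measure_ne_top _ _)).trans (h n hn)
    intro ω hω hcon
    exact hω (Or.inl hcon)
  choose K hK hKne hKP using hT'
  set w : ℕ → ℕ → E → ℝ := fun i j x => min 1 ((i : ℝ) * Metric.infDist x (K j)) with hw
  have hwc : ∀ i j, Continuous (w i j) := fun i j =>
    continuous_const.min (continuous_const.mul (Metric.continuous_infDist_pt _))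
  have hw0 : ∀ i j x, 0 ≤ w i j x := fun i j x =>
    le_min zero_le_one (mul_nonneg (by positivity) Metric.infDist_nonneg)
  have hw1 : ∀ i j x, w i j x ≤ 1 := fun i j x => min_le_left _ _
  have hwl : ∀ i j, ∀ x y, |w i j x - w i j y| ≤ (i : ℝ) * dist x y := by
    intro i j x y
    refine (abs_min_sub_min_le_max _ _ _ _).trans (max_le ?_ ?_)
    · rw [sub_self, abs_zero]
      positivity
    · rw [← mul_sub, abs_mul, abs_of_nonneg (by positivity : (0 : ℝ) ≤ i)]
      apply mul_le_mul_of_nonneg_left _ (by positivity)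
      rw [abs_sub_le_iff]
      have h1 := Metric.infDist_le_infDist_add_dist (s := K j) (x := x) (y := y)
      have h2 := Metric.infDist_le_infDist_add_dist (s := K j) (x := y) (y := x)
      rw [dist_comm y x] at h2
      constructor <;> linarith
  -- the almost sure event
  have hA : ∀ᵐ ω ∂P, ∀ (l : List (ℕ × ℚ)) (L G : ℕ),
      Tendsto (fun N => lav P Y (uf l L G) N ω) atTop (𝓝 0) := by
    rw [ae_all_iff]; intro l
    rw [ae_all_iff]; intro L
    rw [ae_all_iff]; intro G
    refine hL' _ ((L : ℝ) + G + 1) (by positivity) (fun x => ?_) (fun x y => ?_)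
    · have := uf_abs l L G x
      have h1 : (0 : ℝ) ≤ L := by positivity
      linarith
    · refine (uf_lip l L G x y).trans ?_
      apply mul_le_mul_of_nonneg_right _ dist_nonneg
      have h1 : (0 : ℝ) ≤ G := by positivity
      linarith
  have hB : ∀ᵐ ω ∂P, ∀ i j : ℕ, Tendsto (fun N => lav P Y (w i j) N ω) atTop (𝓝 0) := by
    rw [ae_all_iff]; intro i
    rw [ae_all_iff]; intro j
    refine hL' _ ((i : ℝ) + 1) (by positivity) (fun x => ?_) (fun x y => ?_)
    · rw [abs_of_nonneg (hw0 i j x)]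
      have := hw1 i j x
      have h1 : (0 : ℝ) ≤ i := by positivity
      linarith
    · refine (hwl i j x y).trans ?_
      apply mul_le_mul_of_nonneg_right _ dist_nonneg
      linarith
  filter_upwards [hA, hB] with ω hωA hωB
  rintro g hg ⟨G0, hG0⟩
  obtain ⟨G, hG⟩ := exists_nat_ge G0
  have hgG : ∀ x, |g x| ≤ G := fun x => (hG0 x).trans hG
  rw [Metric.tendsto_atTop]
  intro ε hε
  set η : ℝ := ε / (16 * ((G : ℝ) + 1)) with hη
  have hη0 : 0 < η := by positivity
  obtain ⟨j, hj⟩ := exists_nat_one_div_lt hη0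
  obtain ⟨l, L, δ, hδ, happ⟩ := approx (hK j) hg hgG (ε := ε / 16) (by positivity)
  obtain ⟨i, hi⟩ := exists_nat_ge (1 / δ)
  have hwi : ∀ x, |g x - uf l L G x| ≤ ε / 16 + 2 * G * w i j x := by
    intro x
    by_cases hx : ∃ y ∈ K j, dist x y < δ
    · have := happ x hx
      have h1 := hw0 i j x
      have h2 : (0 : ℝ) ≤ 2 * G * w i j x := by positivity
      linarith
    · have h1 : δ ≤ Metric.infDist x (K j) := by
        by_contra hcon
        exact hx ((Metric.infDist_lt_iff (hKne j)).1 (not_le.1 hcon))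
      have h2 : w i j x = 1 := by
        show min 1 ((i : ℝ) * Metric.infDist x (K j)) = 1
        apply min_eq_left
        rw [div_le_iff₀ hδ] at hi
        have : (i : ℝ) * δ ≤ i * Metric.infDist x (K j) := mul_le_mul_of_nonneg_left h1 (by positivity)
        linarith
      rw [h2, mul_one]
      have h3 := hgG x
      have h4 := uf_abs l L G x
      have h5 := abs_sub (g x) (uf l L G x)
      linarith
  have hEw : ∀ n, 1 ≤ n → ∫ ω', w i j (Y n ω') ∂P ≤ η := by
    intro n hn
    have h1 := hKP j n hn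
    have mset : MeasurableSet {ω' | Y n ω' ∉ K j} := (mY n) ((hK j).measurableSet.compl)
    have h2 : ∫ ω', w i j (Y n ω') ∂P ≤ ∫ ω', ({ω' | Y n ω' ∉ K j}).indicator (fun _ => (1 : ℝ)) ω' ∂P := by
      apply integral_mono
      · refine Integrable.of_bound (((hwc i j).measurable.comp (mY n)).aestronglyMeasurable) 1
          (Eventually.of_forall fun ω' => ?_)
        rw [Real.norm_eq_abs, abs_of_nonneg (hw0 _ _ _)]
        exact hw1 _ _ _
      · exact (integrable_const _).indicator mset
      · intro ω'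
        by_cases h : Y n ω' ∉ K j
        · rw [Set.indicator_of_mem (show ω' ∈ {ω' | Y n ω' ∉ K j} from h)]
          exact hw1 _ _ _
        · rw [Set.indicator_of_notMem (show ω' ∉ {ω' | Y n ω' ∉ K j} from h)]
          rw [not_not] at h
          show min 1 ((i : ℝ) * Metric.infDist (Y n ω') (K j)) ≤ 0
          rw [Metric.infDist_zero_of_mem h, mul_zero]
          exact min_le_right _ _
    rw [integral_indicator_const _ mset] at h2
    simp only [smul_eq_mul, mul_one] at h2
    linarith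
  -- the difference
  have ev1 := (hωA l L G).eventually (Metric.ball_mem_nhds 0 (show 0 < ε / 8 by positivity))
  have ev2 := (hωB i j).eventually (Metric.ball_mem_nhds 0 hη0)
  have hfin : ∀ᶠ N : ℕ in atTop, dist (lav P Y g N ω) 0 < ε := by
    filter_upwards [ev1, ev2, eventually_ge_atTop 3] with N h1 h2 hN
    rw [Real.dist_eq, sub_zero] at h1 h2
    rw [Real.dist_eq, sub_zero]
    have hN3 : (3 : ℝ) ≤ N := by exact_mod_cast hN
    have hlog1 : 1 ≤ Real.log N := by
      rw [Real.le_log_iff_exp_le (by linarith)]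
      exact (Real.exp_one_lt_d9.le.trans (by norm_num)).trans hN3
    have hlog0 : 0 < Real.log N := by linarith
    have iu : ∀ (u : E → ℝ), Continuous u → ∀ b : ℝ, (∀ x, |u x| ≤ b) → ∀ n,
        Integrable (fun ω' => u (Y n ω')) P := by
      intro u hu b hb n
      exact Integrable.of_bound ((hu.measurable.comp (mY n)).aestronglyMeasurable) b
        (Eventually.of_forall fun ω' => by rw [Real.norm_eq_abs]; exact hb _)
    have huc : Continuous (uf l L G : E → ℝ) := by
      have : LipschitzWith (L : NNReal) (uf l L G : E → ℝ) := LipschitzWith.of_dist_le_mul fun x y => by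
        rw [Real.dist_eq]
        exact uf_lip l L G x y
      exact this.continuous
    have hdiff : |lav P Y g N ω - lav P Y (uf l L G) N ω| ≤
        (∑ n ∈ Icc 1 N, 1 / (n : ℝ) * (ε / 8 + 2 * G * (w i j (Y n ω) - ∫ ω', w i j (Y n ω') ∂P) +
          4 * G * η)) / Real.log N := by
      unfold lav
      rw [← sub_div, abs_div, abs_of_pos hlog0, ← Finset.sum_sub_distrib]
      apply div_le_div_of_nonneg_right _ hlog0.le
      refine (Finset.abs_sum_le_sum_abs _ _).trans ?_
      apply Finset.sum_le_sum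
      intro n hn
      have hn1 := (Finset.mem_Icc.1 hn).1
      rw [← mul_sub, abs_mul, abs_of_nonneg (by positivity : (0 : ℝ) ≤ 1 / (n : ℝ))]
      apply mul_le_mul_of_nonneg_left _ (by positivity)
      have e1 := hwi (Y n ω)
      have i1 := iu g hg G hgG n
      have i2 := iu _ huc G (uf_abs l L G) n
      have i3 := iu _ (hwc i j) 1 (fun x => by
        rw [abs_of_nonneg (hw0 _ _ _)]; exact hw1 _ _ _) n
      have e2 : |∫ ω', g (Y n ω') ∂P - ∫ ω', uf l L G (Y n ω') ∂P| ≤
          ε / 16 + 2 * G * ∫ ω', w i j (Y n ω') ∂P := by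
        rw [← integral_sub i1 i2]
        refine (abs_integral_le_integral_abs).trans ?_
        calc ∫ ω', |g (Y n ω') - uf l L G (Y n ω')| ∂P ≤
            ∫ ω', (ε / 16 + 2 * G * w i j (Y n ω')) ∂P := by
              apply integral_mono (i1.sub i2).abs ((integrable_const _).add (i3.const_mul _))
              exact fun ω' => hwi _
          _ = ε / 16 + 2 * G * ∫ ω', w i j (Y n ω') ∂P := by
              rw [integral_add (integrable_const _) (i3.const_mul _), integral_const_mul]
              simp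
      have e3 := hEw n hn1
      have e4 : (g (Y n ω) - ∫ ω', g (Y n ω') ∂P) - (uf l L G (Y n ω) - ∫ ω', uf l L G (Y n ω') ∂P) =
          (g (Y n ω) - uf l L G (Y n ω)) - (∫ ω', g (Y n ω') ∂P - ∫ ω', uf l L G (Y n ω') ∂P) := by
        ring
      rw [e4]
      refine (abs_sub _ _).trans ?_
      have e5 : 2 * (G : ℝ) * ∫ ω', w i j (Y n ω') ∂P ≤ 2 * G * η :=
        mul_le_mul_of_nonneg_left e3 (by positivity)
      have e6 : 2 * (G : ℝ) * (w i j (Y n ω) - ∫ ω', w i j (Y n ω') ∂P) =
          2 * G * w i j (Y n ω) - 2 * G * ∫ ω', w i j (Y n ω') ∂P := by ring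
      rw [e6]
      linarith
    have hsum : (∑ n ∈ Icc 1 N, 1 / (n : ℝ) * (ε / 8 + 2 * G * (w i j (Y n ω) -
        ∫ ω', w i j (Y n ω') ∂P) + 4 * G * η)) / Real.log N =
        (ε / 8 + 4 * G * η) * ((∑ n ∈ Icc 1 N, 1 / (n : ℝ)) / Real.log N) +
        2 * G * lav P Y (w i j) N ω := by
      unfold lav
      rw [← mul_div_assoc (ε / 8 + 4 * G * η) _ (Real.log N),
        ← mul_div_assoc (2 * (G : ℝ)) _ (Real.log N), ← add_div, Finset.mul_sum, Finset.mul_sum,
        ← Finset.sum_add_distrib]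
      congr 1
      apply Finset.sum_congr rfl
      intro n _
      ring
    have hH : (∑ n ∈ Icc 1 N, 1 / (n : ℝ)) / Real.log N ≤ 2 := by
      rw [div_le_iff₀ hlog0]
      have h := harmonic_le_one_add_log N
      rw [harmonic_eq_sum_Icc] at h
      push_cast at h
      simp only [one_div]
      linarith
    have hGη : (G : ℝ) * η ≤ ε / 16 := by
      rw [hη, mul_div_assoc', div_le_div_iff₀ (by positivity) (by norm_num)]
      have : (0 : ℝ) ≤ G := by positivity
      nlinarith
    have hG0' : (0 : ℝ) ≤ G := by positivity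
    have hwlav : 2 * (G : ℝ) * lav P Y (w i j) N ω ≤ ε / 8 := by
      have h3 : lav P Y (w i j) N ω ≤ η := (le_abs_self _).trans h2.le
      have h4 : 2 * (G : ℝ) * lav P Y (w i j) N ω ≤ 2 * G * η :=
        mul_le_mul_of_nonneg_left h3 (by positivity)
      linarith
    rw [hsum] at hdiff
    have h5 : (ε / 8 + 4 * G * η) * ((∑ n ∈ Icc 1 N, 1 / (n : ℝ)) / Real.log N) ≤
        (ε / 8 + 4 * G * η) * 2 := mul_le_mul_of_nonneg_left hH (by positivity)
    have h6 : |lav P Y g N ω| ≤ |lav P Y g N ω - lav P Y (uf l L G) N ω| +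
        |lav P Y (uf l L G) N ω| := by
      have := abs_add_le (lav P Y g N ω - lav P Y (uf l L G) N ω) (lav P Y (uf l L G) N ω)
      rwa [sub_add_cancel] at this
    nlinarith
  exact eventually_atTop.1 hfin

end sim

end Pool.Agent.Q218.DC
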