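import Mathlib

/-!
Logarithmic averages of weakly dependent bounded random variables.
-/

set_option autoImplicit false

namespace Pool.Agent.Q218.DC

open MeasureTheory Filter Topology Finset

theorem sum_rpow_le {c : ℝ} (hc : 0 < c) (hc1 : c ≤ 1) (n : ℕ) :
    ∑ m ∈ Icc 1 n, (m : ℝ) ^ (c - 1) ≤ (n : ℝ) ^ c / c := by
  induction n with
  | zero =>
    simp only [Finset.Icc_eq_empty_of_lt (show 0 < 1 by norm_num), Finset.sum_empty]
    positivity
  | succ n ih =>
    rw [Finset.sum_Icc_succ_top (by omega)]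
    have hn : (0 : ℝ) < ((n + 1 : ℕ) : ℝ) := by positivity
    set x : ℝ := ((n + 1 : ℕ) : ℝ) with hx
    have h1 : (1 + (-1 / x)) ^ c ≤ 1 + c * (-1 / x) := by
      apply rpow_one_add_le_one_add_mul_self _ hc.le hc1
      rw [neg_div, neg_le_neg_iff, div_le_one hn]
      rw [hx]
      push_cast
      have : (0 : ℝ) ≤ n := by positivity
      linarith
    have h2 : (1 + (-1 / x)) = n / x := by
      rw [hx]
      push_cast
      field_simp
      ring
    rw [h2, Real.div_rpow (by positivity) hn.le, div_le_iff₀ (by positivity)] at h1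
    have h3 : (1 + c * (-1 / x)) * x ^ c = x ^ c - c * x ^ (c - 1) := by
      rw [Real.rpow_sub hn, Real.rpow_one]
      ring
    rw [h3] at h1
    rw [le_div_iff₀ hc] at ih ⊢
    rw [add_mul]
    linarith

theorem sum_ratio_le {c : ℝ} (hc : 0 < c) (hc1 : c ≤ 1) {n : ℕ} (hn : 1 ≤ n) :
    ∑ m ∈ Icc 1 n, 1 / (m : ℝ) * ((m : ℝ) / n) ^ c ≤ 1 / c := by
  have hn0 : (0 : ℝ) < n := by exact_mod_cast hn
  have h1 : ∑ m ∈ Icc 1 n, 1 / (m : ℝ) * ((m : ℝ) / n) ^ c =
      (∑ m ∈ Icc 1 n, (m : ℝ) ^ (c - 1)) / (n : ℝ) ^ c := by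
    rw [Finset.sum_div]
    apply Finset.sum_congr rfl
    intro m hm
    have hm0 : (0 : ℝ) < m := by
      have := (Finset.mem_Icc.1 hm).1
      exact_mod_cast this
    rw [Real.div_rpow hm0.le hn0.le, Real.rpow_sub hm0, Real.rpow_one]
    ring
  rw [h1, div_le_iff₀ (by positivity)]
  have := sum_rpow_le hc hc1 n
  calc _ ≤ (n : ℝ) ^ c / c := this
    _ = _ := by ring

theorem harm_le {N : ℕ} (hN : 1 ≤ N) : ∑ n ∈ Icc 1 N, 1 / (n : ℝ) ≤ 1 + Real.log N := by
  have h := harmonic_le_one_add_log N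
  rw [harmonic_eq_sum_Icc] at h
  push_cast at h
  simpa [one_div] using h

theorem tail_log {a b : ℕ} (ha : 1 ≤ a) (hab : a ≤ b) :
    ∑ n ∈ Ioc a b, 1 / (n : ℝ) ≤ Real.log b - Real.log a := by
  induction b, hab using Nat.le_induction with
  | base => simp
  | succ b hb ih =>
    rw [Finset.sum_Ioc_succ_top (by omega)]
    have hb0 : (0 : ℝ) < b := by
      have : 0 < b := by omega
      exact_mod_cast this
    have hb1 : (0 : ℝ) < ((b + 1 : ℕ) : ℝ) := by positivity
    have h1 := Real.one_sub_inv_le_log_of_pos (x := ((b + 1 : ℕ) : ℝ) / b) (by positivity)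
    rw [Real.log_div hb1.ne' hb0.ne'] at h1
    have h2 : 1 - (((b + 1 : ℕ) : ℝ) / b)⁻¹ = 1 / ((b + 1 : ℕ) : ℝ) := by
      push_cast
      field_simp
      ring
    linarith

section

variable {Ω : Type*} [MeasurableSpace Ω] (P : Measure Ω) [IsProbabilityMeasure P]

theorem sq_tendsto {Y : ℕ → Ω → ℝ} (mY : ∀ k, Measurable (Y k)) {b : ℕ → ℝ} (hb : Summable b)
    (hb0 : ∀ k, 0 ≤ b k) (hi : ∀ k, Integrable (fun ω => Y k ω ^ 2) P)
    (h : ∀ k, ∫ ω, Y k ω ^ 2 ∂P ≤ b k) : ∀ᵐ ω ∂P, Tendsto (fun k => Y k ω) atTop (𝓝 0) := by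
  have h1 : ∫⁻ ω, ∑' k, ENNReal.ofReal (Y k ω ^ 2) ∂P ≠ ⊤ := by
    rw [lintegral_tsum (fun k => ((mY k).pow_const 2).ennreal_ofReal.aemeasurable)]
    have h2 : ∀ k, ∫⁻ ω, ENNReal.ofReal (Y k ω ^ 2) ∂P ≤ ENNReal.ofReal (b k) := by
      intro k
      rw [← ofReal_integral_eq_lintegral_ofReal (hi k) (Eventually.of_forall fun ω => sq_nonneg _)]
      exact ENNReal.ofReal_le_ofReal (h k)
    refine ne_top_of_le_ne_top ?_ (ENNReal.tsum_le_tsum h2)
    rw [← ENNReal.ofReal_tsum_of_nonneg hb0 hb]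
    exact ENNReal.ofReal_ne_top
  have h3 := ae_lt_top' (AEMeasurable.ennreal_tsum
    fun k => ((mY k).pow_const 2).ennreal_ofReal.aemeasurable) h1
  filter_upwards [h3] with ω hω
  have h4 := ENNReal.tendsto_atTop_zero_of_tsum_ne_top hω.ne
  have h5 : Tendsto (fun k => Y k ω ^ 2) atTop (𝓝 0) := by
    have h6 := (ENNReal.tendsto_toReal ENNReal.zero_ne_top).comp h4
    refine h6.congr fun k => ?_
    show (ENNReal.ofReal (Y k ω ^ 2)).toReal = _
    rw [ENNReal.toReal_ofReal (sq_nonneg _)]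
  have h7 := (Real.continuous_sqrt.tendsto 0).comp h5
  rw [Real.sqrt_zero] at h7
  rw [tendsto_zero_iff_abs_tendsto_zero]
  refine h7.congr fun k => ?_
  show Real.sqrt (Y k ω ^ 2) = |Y k ω|
  exact Real.sqrt_sq_eq_abs _

/-- **Logarithmic averages.** -/
theorem log_avg {X : ℕ → Ω → ℝ} (mX : ∀ n, Measurable (X n)) {K : ℝ} (hK : ∀ n ω, |X n ω| ≤ K)
    {C c : ℝ} (hC : 0 ≤ C) (hc : 0 < c) (hc1 : c ≤ 1)
    (hcov : ∀ m n : ℕ, 1 ≤ m → m ≤ n → |∫ ω, X m ω * X n ω ∂P| ≤ C * ((m : ℝ) / n) ^ c) :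
    ∀ᵐ ω ∂P, Tendsto (fun N : ℕ => (∑ n ∈ Icc 1 N, 1 / (n : ℝ) * X n ω) / Real.log N)
      atTop (𝓝 0) := by
  set S : ℕ → Ω → ℝ := fun N ω => ∑ n ∈ Icc 1 N, 1 / (n : ℝ) * X n ω with hS
  have mS : ∀ N, Measurable (S N) := fun N => by
    refine Finset.measurable_sum _ fun n _ => ?_
    exact (mX n).const_mul _
  have hsucc : ∀ N ω, S (N + 1) ω = S N ω + 1 / ((N + 1 : ℕ) : ℝ) * X (N + 1) ω := by
    intro N ω
    show ∑ n ∈ Icc 1 (N + 1), 1 / (n : ℝ) * X n ω = _
    rw [Finset.sum_Icc_succ_top (by omega)]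
  have hPne : Nonempty Ω := by
    by_contra hcon
    rw [not_nonempty_iff] at hcon
    have h1 := measure_univ (μ := P)
    rw [Set.univ_eq_empty_iff.2 hcon, measure_empty] at h1
    exact zero_ne_one h1
  obtain ⟨ω0⟩ := hPne
  have hK0 : 0 ≤ K := (abs_nonneg _).trans (hK 0 ω0)
  have hSb : ∀ N ω, |S N ω| ≤ N * K := by
    intro N ω
    induction N with
    | zero => simp [hS]
    | succ N ih =>
      rw [hsucc]
      refine (abs_add_le _ _).trans ?_
      have h1 : |1 / ((N + 1 : ℕ) : ℝ) * X (N + 1) ω| ≤ K := by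
        rw [abs_mul, abs_of_pos (by positivity)]
        have h2 : 1 / ((N + 1 : ℕ) : ℝ) ≤ 1 := by
          rw [div_le_one (by positivity)]
          push_cast
          have : (0 : ℝ) ≤ N := by positivity
          linarith
        calc 1 / ((N + 1 : ℕ) : ℝ) * |X (N + 1) ω| ≤ 1 * K :=
              mul_le_mul h2 (hK _ _) (abs_nonneg _) zero_le_one
          _ = K := one_mul K
      have h3 : ((N + 1 : ℕ) : ℝ) * K = N * K + K := by push_cast; ring
      rw [h3]
      linarith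
  have ibd : ∀ (u : Ω → ℝ), Measurable u → ∀ b : ℝ, (∀ ω, |u ω| ≤ b) → Integrable u P := by
    intro u mu b hu
    exact Integrable.of_bound mu.aestronglyMeasurable b (Eventually.of_forall fun ω => by
      rw [Real.norm_eq_abs]; exact hu ω)
  have iS2 : ∀ N, Integrable (fun ω => S N ω ^ 2) P := fun N =>
    ibd _ ((mS N).pow_const 2) ((N * K) ^ 2) fun ω => by
      rw [abs_pow]
      exact pow_le_pow_left₀ (abs_nonneg _) (hSb N ω) 2
  have iXX : ∀ m n, Integrable (fun ω => X m ω * X n ω) P := fun m n =>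
    ibd _ ((mX m).mul (mX n)) (K * K) fun ω => by
      rw [abs_mul]
      exact mul_le_mul (hK _ _) (hK _ _) (abs_nonneg _) hK0
  -- variance
  have hvar : ∀ N, ∫ ω, S N ω ^ 2 ∂P ≤ (3 * C / c) * ∑ n ∈ Icc 1 N, 1 / (n : ℝ) := by
    intro N
    induction N with
    | zero => simp [hS]
    | succ N ih =>
      rw [Finset.sum_Icc_succ_top (by omega), mul_add]
      set x : ℝ := ((N + 1 : ℕ) : ℝ) with hx
      have hx0 : 0 < x := by positivity
      have hx1 : 1 ≤ x := by
        rw [hx]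
        push_cast
        have : (0 : ℝ) ≤ N := by positivity
        linarith
      have e1 : ∀ ω, S (N + 1) ω ^ 2 = S N ω ^ 2 +
          (2 / x) * (∑ m ∈ Icc 1 N, 1 / (m : ℝ) * (X m ω * X (N + 1) ω)) +
          (1 / x ^ 2) * (X (N + 1) ω * X (N + 1) ω) := by
        intro ω
        rw [hsucc]
        have e2 : ∑ m ∈ Icc 1 N, 1 / (m : ℝ) * (X m ω * X (N + 1) ω) = S N ω * X (N + 1) ω := by
          show _ = (∑ n ∈ Icc 1 N, 1 / (n : ℝ) * X n ω) * _
          rw [Finset.sum_mul]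
          apply Finset.sum_congr rfl
          intro m _
          ring
        rw [e2]
        field_simp
        ring
      have i1 : Integrable (fun ω => ∑ m ∈ Icc 1 N, 1 / (m : ℝ) * (X m ω * X (N + 1) ω)) P :=
        integrable_finsetSum _ fun m _ => (iXX m (N + 1)).const_mul _
      have e3 : ∫ ω, S (N + 1) ω ^ 2 ∂P = ∫ ω, S N ω ^ 2 ∂P +
          (2 / x) * (∑ m ∈ Icc 1 N, 1 / (m : ℝ) * ∫ ω, X m ω * X (N + 1) ω ∂P) +
          (1 / x ^ 2) * ∫ ω, X (N + 1) ω * X (N + 1) ω ∂P := by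
        have j1 : Integrable (fun ω => (2 / x) * (∑ m ∈ Icc 1 N, 1 / (m : ℝ) *
            (X m ω * X (N + 1) ω))) P := i1.const_mul _
        have j2 : Integrable (fun ω => (1 / x ^ 2) * (X (N + 1) ω * X (N + 1) ω)) P :=
          (iXX _ _).const_mul _
        have j3 : Integrable (fun ω => S N ω ^ 2 + (2 / x) * (∑ m ∈ Icc 1 N, 1 / (m : ℝ) *
            (X m ω * X (N + 1) ω))) P := (iS2 N).add j1
        rw [integral_congr_ae (Eventually.of_forall e1), integral_add j3 j2,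
          integral_add (iS2 N) j1, integral_const_mul, integral_const_mul,
          integral_finsetSum _ fun m _ => (iXX m (N + 1)).const_mul _]
        simp only [integral_const_mul]
      rw [e3]
      have h1 : ∑ m ∈ Icc 1 N, 1 / (m : ℝ) * ∫ ω, X m ω * X (N + 1) ω ∂P ≤ C / c := by
        have h2 : ∑ m ∈ Icc 1 N, 1 / (m : ℝ) * ∫ ω, X m ω * X (N + 1) ω ∂P ≤
            ∑ m ∈ Icc 1 (N + 1), C * (1 / (m : ℝ) * ((m : ℝ) / (N + 1 : ℕ)) ^ c) := by
          refine (Finset.sum_le_sum (f := fun m : ℕ => 1 / (m : ℝ) * ∫ ω, X m ω * X (N + 1) ω ∂P)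
            (g := fun m : ℕ => C * (1 / (m : ℝ) * ((m : ℝ) / (N + 1 : ℕ)) ^ c)) fun m hm => ?_).trans ?_
          · obtain ⟨h3, h4⟩ := Finset.mem_Icc.1 hm
            have h5 := (le_abs_self _).trans (hcov m (N + 1) h3 (by omega))
            calc 1 / (m : ℝ) * ∫ ω, X m ω * X (N + 1) ω ∂P ≤
                1 / (m : ℝ) * (C * ((m : ℝ) / (N + 1 : ℕ)) ^ c) :=
                  mul_le_mul_of_nonneg_left h5 (by positivity)
              _ = _ := by ring
          · apply Finset.sum_le_sum_of_subset_of_nonneg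
            · exact Finset.Icc_subset_Icc_right (by omega)
            · intro m _ _
              positivity
        rw [← Finset.mul_sum] at h2
        refine h2.trans ?_
        have h6 := mul_le_mul_of_nonneg_left (sum_ratio_le hc hc1 (n := N + 1) (by omega)) hC
        refine h6.trans (le_of_eq ?_)
        ring
      have h2 : ∫ ω, X (N + 1) ω * X (N + 1) ω ∂P ≤ C := by
        have h3 := (le_abs_self _).trans (hcov (N + 1) (N + 1) (by omega) le_rfl)
        rw [div_self (by positivity), Real.one_rpow, mul_one] at h3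
        exact h3
      have h3 : (2 / x) * (∑ m ∈ Icc 1 N, 1 / (m : ℝ) * ∫ ω, X m ω * X (N + 1) ω ∂P) ≤
          (2 / x) * (C / c) := mul_le_mul_of_nonneg_left h1 (by positivity)
      have h4 : (1 / x ^ 2) * ∫ ω, X (N + 1) ω * X (N + 1) ω ∂P ≤ (1 / x) * (C / c) := by
        have h5 : (1 / x ^ 2) * ∫ ω, X (N + 1) ω * X (N + 1) ω ∂P ≤ (1 / x ^ 2) * C :=
          mul_le_mul_of_nonneg_left h2 (by positivity)
        refine h5.trans ?_
        apply mul_le_mul _ _ hC (by positivity)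
        · apply one_div_le_one_div_of_le hx0
          nlinarith
        · rw [le_div_iff₀ hc]
          nlinarith
      have h5 : 3 * C / c * (1 / x) = (2 / x) * (C / c) + (1 / x) * (C / c) := by ring
      rw [h5]
      linarith
  -- the subsequence
  have hl2 : 0 < Real.log 2 := Real.log_pos (by norm_num)
  set ν : ℕ → ℕ := fun k => 2 ^ ((k + 1) ^ 2) with hν
  have hν1 : ∀ k, 1 ≤ ν k := fun k => Nat.one_le_two_pow
  have hlogν : ∀ k, Real.log (ν k) = ((k : ℝ) + 1) ^ 2 * Real.log 2 := by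
    intro k
    show Real.log ((2 ^ ((k + 1) ^ 2) : ℕ) : ℝ) = _
    push_cast
    rw [Real.log_pow]
    push_cast
    ring
  have hsub : ∀ᵐ ω ∂P, Tendsto (fun k => S (ν k) ω / ((k : ℝ) + 1) ^ 2) atTop (𝓝 0) := by
    have hsm : Summable (fun k : ℕ => (3 * C / c * 2) * (1 / ((k : ℝ) + 1) ^ 2)) := by
      apply Summable.mul_left
      have h1 := (summable_nat_add_iff (f := fun k : ℕ => 1 / (k : ℝ) ^ 2) 1).2
        (Real.summable_one_div_nat_pow.2 (by norm_num))
      refine h1.congr fun k => ?_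
      push_cast
      rfl
    refine sq_tendsto P (fun k => (mS (ν k)).div_const _) hsm (fun k => by positivity) ?_ ?_
    · intro k
      have := (iS2 (ν k)).div_const ((((k : ℝ) + 1) ^ 2) ^ 2)
      refine this.congr (Eventually.of_forall fun ω => ?_)
      show S (ν k) ω ^ 2 / _ = (S (ν k) ω / _) ^ 2
      rw [div_pow]
    · intro k
      have h1 : ∫ ω, (S (ν k) ω / ((k : ℝ) + 1) ^ 2) ^ 2 ∂P =
          (∫ ω, S (ν k) ω ^ 2 ∂P) / (((k : ℝ) + 1) ^ 2) ^ 2 := by
        rw [← integral_div]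
        apply integral_congr_ae
        exact Eventually.of_forall fun ω => by
          show (S (ν k) ω / _) ^ 2 = S (ν k) ω ^ 2 / _
          rw [div_pow]
      rw [h1, div_le_iff₀ (by positivity)]
      refine (hvar (ν k)).trans ?_
      have h2 := harm_le (hν1 k)
      rw [hlogν] at h2
      have h3 : Real.log 2 ≤ 1 := by
        have := Real.log_two_lt_d9
        linarith
      have h4 : (1 : ℝ) ≤ ((k : ℝ) + 1) ^ 2 := by
        have : (0 : ℝ) ≤ k := by positivity
        nlinarith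
      have h5 : ∑ n ∈ Icc 1 (ν k), 1 / (n : ℝ) ≤ 2 * ((k : ℝ) + 1) ^ 2 := by nlinarith
      calc (3 * C / c) * ∑ n ∈ Icc 1 (ν k), 1 / (n : ℝ) ≤ (3 * C / c) * (2 * ((k : ℝ) + 1) ^ 2) :=
            mul_le_mul_of_nonneg_left h5 (by positivity)
        _ = _ := by field_simp
  -- all indices
  filter_upwards [hsub] with ω hω
  set κ : ℕ → ℕ := fun N => Nat.sqrt (Nat.log 2 N) - 1 with hκ
  have hκt : Tendsto κ atTop atTop := by
    rw [tendsto_atTop]
    intro b
    filter_upwards [eventually_ge_atTop (2 ^ ((b + 1) ^ 2))] with N hN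
    have h1 : (b + 1) ^ 2 ≤ Nat.log 2 N :=
      Nat.le_log_of_pow_le (by norm_num) hN
    have h2 : b + 1 ≤ Nat.sqrt (Nat.log 2 N) := Nat.le_sqrt'.2 h1
    show b ≤ Nat.sqrt (Nat.log 2 N) - 1
    omega
  have hlim1 := hω.comp hκt
  have hlim2 : Tendsto (fun N : ℕ => K * (2 * ((κ N : ℝ) + 1) + 1) / ((κ N : ℝ) + 1) ^ 2)
      atTop (𝓝 0) := by
    have h1 : Tendsto (fun k : ℕ => K * (2 * ((k : ℝ) + 1) + 1) / ((k : ℝ) + 1) ^ 2) atTop (𝓝 0) := by
      have h2 : Tendsto (fun k : ℕ => 1 / ((k : ℝ) + 1)) atTop (𝓝 0) :=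
        tendsto_one_div_add_atTop_nhds_zero_nat
      have h3 : Tendsto (fun k : ℕ => K * (2 * (1 / ((k : ℝ) + 1)) + (1 / ((k : ℝ) + 1)) ^ 2))
          atTop (𝓝 (K * (2 * 0 + 0 ^ 2))) := ((h2.const_mul 2).add (h2.pow 2)).const_mul K
      norm_num at h3
      refine h3.congr fun k => ?_
      field_simp
    exact h1.comp hκt
  have hlim3 := ((hlim1.abs).add hlim2).div_const (Real.log 2)
  rw [abs_zero, add_zero, zero_div] at hlim3
  refine squeeze_zero_norm' ?_ hlim3
  filter_upwards [eventually_ge_atTop 2] with N hN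
  have hN1 : 1 ≤ Nat.log 2 N := Nat.le_log_of_pow_le (by norm_num) (by simpa using hN)
  have hs1 : 1 ≤ Nat.sqrt (Nat.log 2 N) := Nat.le_sqrt'.2 (by simpa using hN1)
  have hκ1 : κ N + 1 = Nat.sqrt (Nat.log 2 N) := by
    show Nat.sqrt (Nat.log 2 N) - 1 + 1 = _
    omega
  have hle1 : (κ N + 1) ^ 2 ≤ Nat.log 2 N := by
    rw [hκ1]
    exact Nat.sqrt_le' _
  have hle2 : ν (κ N) ≤ N := by
    refine le_trans ?_ (Nat.pow_log_le_self 2 (by omega : N ≠ 0))
    exact Nat.pow_le_pow_right (by norm_num) hle1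
  have hle3 : N ≤ ν (κ N + 1) := by
    have h1 : N < 2 ^ (Nat.log 2 N + 1) := Nat.lt_pow_succ_log_self (by norm_num) N
    have h2 : Nat.log 2 N < (Nat.sqrt (Nat.log 2 N) + 1) ^ 2 := Nat.lt_succ_sqrt' _
    refine h1.le.trans ?_
    show _ ≤ 2 ^ ((κ N + 1 + 1) ^ 2)
    rw [hκ1]
    exact Nat.pow_le_pow_right (by norm_num) (by omega)
  have hk0 : (0 : ℝ) ≤ (κ N : ℝ) := by positivity
  set k : ℝ := (κ N : ℝ) with hk
  have hdiff : |S N ω| ≤ |S (ν (κ N)) ω| + K * (2 * (k + 1) + 1) * Real.log 2 := by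
    have h1 : S N ω = S (ν (κ N)) ω + ∑ n ∈ Ioc (ν (κ N)) N, 1 / (n : ℝ) * X n ω := by
      show ∑ n ∈ Icc 1 N, _ = ∑ n ∈ Icc 1 (ν (κ N)), _ + _
      have hIcc : ∀ b : ℕ, Icc 1 b = Ioc 0 b := fun b => by
        ext x
        simp only [Finset.mem_Icc, Finset.mem_Ioc]
        omega
      rw [hIcc, hIcc, ← Finset.sum_Ioc_consecutive _ (Nat.zero_le _) hle2]
    rw [h1]
    refine (abs_add_le _ _).trans (add_le_add le_rfl ?_)
    refine (Finset.abs_sum_le_sum_abs _ _).trans ?_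
    have h2 : ∑ n ∈ Ioc (ν (κ N)) N, |1 / (n : ℝ) * X n ω| ≤ ∑ n ∈ Ioc (ν (κ N)) N, K * (1 / (n : ℝ)) := by
      apply Finset.sum_le_sum
      intro n _
      rw [abs_mul, abs_of_nonneg (by positivity), mul_comm]
      exact mul_le_mul_of_nonneg_right (hK n ω) (by positivity)
    refine h2.trans ?_
    rw [← Finset.mul_sum, mul_assoc]
    apply mul_le_mul_of_nonneg_left _ hK0
    refine (tail_log (hν1 _) hle2).trans ?_
    have h3 : Real.log N ≤ Real.log (ν (κ N + 1)) := by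
      apply Real.log_le_log
      · have : 0 < N := by omega
        exact_mod_cast this
      · exact_mod_cast hle3
    rw [hlogν] at h3 ⊢
    push_cast at h3
    rw [← hk] at h3 ⊢
    nlinarith
  have hlogN : (k + 1) ^ 2 * Real.log 2 ≤ Real.log N := by
    rw [hk, ← hlogν]
    apply Real.log_le_log
    · have := hν1 (κ N)
      exact_mod_cast this
    · exact_mod_cast hle2
  have hpos : 0 < (k + 1) ^ 2 * Real.log 2 := by positivity
  rw [Real.norm_eq_abs, abs_div, abs_of_pos (lt_of_lt_of_le hpos hlogN)]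
  calc |S N ω| / Real.log N ≤ |S N ω| / ((k + 1) ^ 2 * Real.log 2) :=
        div_le_div_of_nonneg_left (abs_nonneg _) hpos hlogN
    _ ≤ (|S (ν (κ N)) ω| + K * (2 * (k + 1) + 1) * Real.log 2) / ((k + 1) ^ 2 * Real.log 2) :=
        div_le_div_of_nonneg_right hdiff hpos.le
    _ ≤ (|S (ν (κ N)) ω / (k + 1) ^ 2| + K * (2 * (k + 1) + 1) / (k + 1) ^ 2) / Real.log 2 := by
        rw [abs_div, abs_of_pos (by positivity : 0 < (k + 1) ^ 2)]
        have h3 : Real.log 2 ≤ 1 := by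
          have := Real.log_two_lt_d9
          linarith
        have e : (|S (ν (κ N)) ω| / (k + 1) ^ 2 + K * (2 * (k + 1) + 1) / (k + 1) ^ 2) / Real.log 2 =
            (|S (ν (κ N)) ω| + K * (2 * (k + 1) + 1)) / ((k + 1) ^ 2 * Real.log 2) := by
          field_simp
        rw [e]
        apply div_le_div_of_nonneg_right _ hpos.le
        have : 0 ≤ K * (2 * (k + 1) + 1) := by positivity
        nlinarith

end

end Pool.Agent.Q218.DC
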