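import Pool.Agent.Q218.DC.Cov
import Pool.Agent.Q218.DC.Slln
import Pool.Agent.Q218.DC.Sim

/-!
Almost sure limit theorem for the exploration path in the half-plane.
-/

set_option autoImplicit false

namespace Pool.Agent.Q218.DC

open H984H H974 Finset H342P H984P MeasureTheory Filter Topology
open Pool.Agent.Q218.ZO

/-- The rescaled curve of a sequence of points. -/
noncomputable def plc (n : ℕ) (x : ℕ → ℂ) : C(unitInterval, ℂ) :=
  H984N.pl n (fun k => (((n : ℝ) ^ (-(4/7) : ℝ) : ℝ) : ℂ) * x k)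

theorem curve_eq_plc (n : ℕ) (ω : Conf) : curve n ω = plc n (gam ω) := rfl

theorem plc_congr {n : ℕ} {x y : ℕ → ℂ} (h : ∀ k ≤ n, x k = y k) : plc n x = plc n y := by
  rw [← dist_le_zero]
  refine pl_dist le_rfl fun k hk => ?_
  rw [h k hk, dist_self]

theorem plc_cont (n : ℕ) : Continuous (plc n) := by
  rw [continuous_iff_continuousAt]
  intro x
  rw [ContinuousAt, tendsto_iff_dist_tendsto_zero]
  have h1 : Tendsto (fun y : ℕ → ℂ => ∑ k ∈ range (n + 1),
      dist ((((n : ℝ) ^ (-(4/7) : ℝ) : ℝ) : ℂ) * y k) ((((n : ℝ) ^ (-(4/7) : ℝ) : ℝ) : ℂ) * x k))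
      (𝓝 x) (𝓝 0) := by
    have h2 : Continuous (fun y : ℕ → ℂ => ∑ k ∈ range (n + 1),
      dist ((((n : ℝ) ^ (-(4/7) : ℝ) : ℝ) : ℂ) * y k) ((((n : ℝ) ^ (-(4/7) : ℝ) : ℝ) : ℂ) * x k)) := by
      fun_prop
    have h3 := h2.tendsto x
    simpa using h3
  refine squeeze_zero (fun y => dist_nonneg) (fun y => ?_) h1
  refine pl_dist (Finset.sum_nonneg fun k _ => dist_nonneg) fun k hk => ?_
  exact Finset.single_le_sum (f := fun k => dist ((((n : ℝ) ^ (-(4/7) : ℝ) : ℝ) : ℂ) * y k)
    ((((n : ℝ) ^ (-(4/7) : ℝ) : ℝ) : ℂ) * x k)) (fun k _ => dist_nonneg)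
    (Finset.mem_range.2 (by omega))

theorem plc_meas (n : ℕ) : Measurable (plc n) := (plc_cont n).measurable

/-- The covariances of a Lipschitz function at two scales. -/
theorem cov_g : ∃ C c : ℝ, 0 < C ∧ 0 < c ∧ c ≤ 1 ∧ ∀ g : C(unitInterval, ℂ) → ℝ, (∀ f, |g f| ≤ 1) →
    (∀ f f', |g f - g f'| ≤ dist f f') → ∀ m n : ℕ, 1 ≤ m → m ≤ n →
    |∫ ω, (g (curve m ω) - ∫ ω', g (curve m ω') ∂perc) *
      (g (curve n ω) - ∫ ω', g (curve n ω') ∂perc) ∂perc| ≤ C * ((m : ℝ) / n) ^ c := by
  obtain ⟨C, c, hC, hc, key⟩ := cov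
  refine ⟨C, min c 1, hC, by positivity, min_le_right _ _, ?_⟩
  intro g hg hlip m n hm hmn
  have gc : Continuous g := by
    have : LipschitzWith 1 g := LipschitzWith.of_dist_le_mul fun f f' => by
      rw [Real.dist_eq, NNReal.coe_one, one_mul]
      exact hlip f f'
    exact this.continuous
  have h1 := key m n hm hmn (fun x => g (plc m x)) (gc.measurable.comp (plc_meas m))
    (fun x y h => by rw [plc_congr h]) (fun x => hg _) g hg hlip
  have iG : ∀ k, Integrable (fun ω => g (curve k ω)) perc := fun k =>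
    Integrable.of_bound ((gc.measurable.comp (curve_meas k)).aestronglyMeasurable) 1
      (Eventually.of_forall fun ω => by rw [Real.norm_eq_abs]; exact hg _)
  have iGG : Integrable (fun ω => g (curve m ω) * g (curve n ω)) perc :=
    Integrable.of_bound (((gc.measurable.comp (curve_meas m)).mul
      (gc.measurable.comp (curve_meas n))).aestronglyMeasurable) (1 * 1)
      (Eventually.of_forall fun ω => by
        rw [Real.norm_eq_abs, abs_mul]
        exact mul_le_mul (hg _) (hg _) (abs_nonneg _) zero_le_one)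
  set a := ∫ ω', g (curve m ω') ∂perc with ha
  set b := ∫ ω', g (curve n ω') ∂perc with hb
  have h2 : ∫ ω, (g (curve m ω) - a) * (g (curve n ω) - b) ∂perc =
      ∫ ω, g (plc m (gam ω)) * g (curve n ω) ∂perc - (∫ ω, g (plc m (gam ω)) ∂perc) * b := by
    have e1 : ∀ ω, (g (curve m ω) - a) * (g (curve n ω) - b) =
        (g (curve m ω) * g (curve n ω) - b * g (curve m ω)) - (a * g (curve n ω) - a * b) := by
      intro ω; ring
    have j1 : Integrable (fun ω => g (curve m ω) * g (curve n ω) - b * g (curve m ω)) perc :=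
      iGG.sub ((iG m).const_mul b)
    have j2 : Integrable (fun ω => a * g (curve n ω) - a * b) perc :=
      ((iG n).const_mul a).sub (integrable_const _)
    rw [integral_congr_ae (Eventually.of_forall e1), integral_sub j1 j2,
      integral_sub iGG ((iG m).const_mul b), integral_sub ((iG n).const_mul a) (integrable_const _),
      integral_const_mul, integral_const_mul]
    simp only [integral_const, probReal_univ, smul_eq_mul, one_mul]
    show _ = ∫ ω, g (curve m ω) * g (curve n ω) ∂perc - a * b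
    rw [← ha, ← hb]
    ring
  rw [h2]
  refine h1.trans ?_
  apply mul_le_mul_of_nonneg_left _ hC.le
  have hm0 : (0 : ℝ) < m := by exact_mod_cast hm
  have hn0 : (0 : ℝ) < n := by exact_mod_cast hm.trans hmn
  apply Real.rpow_le_rpow_of_exponent_ge (by positivity) _ (min_le_left _ _)
  rw [div_le_one hn0]
  exact_mod_cast hmn

/-- **Almost sure limit theorem.** -/
theorem aslt : ∀ᵐ ω ∂perc, ∀ g : C(unitInterval, ℂ) → ℝ, Continuous g →
    (∃ G : ℝ, ∀ x, |g x| ≤ G) →
      Tendsto (fun N => lav perc curve g N ω) atTop (𝓝 0) := by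
  obtain ⟨C, c, hC, hc, hc1, hcov⟩ := cov_g
  obtain ⟨⟨c0, hc0, hL⟩, ⟨C0, hC0, hU⟩, -⟩ := Results.MP_6c8efb_pr.Displacement.inputs
  refine sim perc curve_meas ?_ ?_
  · intro g hg hlip
    have gc : Continuous g := by
      have : LipschitzWith 1 g := LipschitzWith.of_dist_le_mul fun f f' => by
        rw [Real.dist_eq, NNReal.coe_one, one_mul]
        exact hlip f f'
      exact this.continuous
    refine log_avg perc (X := fun n ω => g (curve n ω) - ∫ ω', g (curve n ω') ∂perc)
      (fun n => (gc.measurable.comp (curve_meas n)).sub_const _) (K := 2) ?_ hC.le hc hc1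
      (fun m n hm hmn => hcov g hg hlip m n hm hmn)
    intro n ω
    have h1 := hg (curve n ω)
    have h2 : |∫ ω', g (curve n ω') ∂perc| ≤ 1 := by
      refine (abs_integral_le_integral_abs).trans ?_
      have iG : Integrable (fun ω => |g (curve n ω)|) perc :=
        Integrable.of_bound ((gc.measurable.comp (curve_meas n)).abs.aestronglyMeasurable) 1
          (Eventually.of_forall fun ω => by rw [Real.norm_eq_abs, abs_abs]; exact hg _)
      calc ∫ ω', |g (curve n ω')| ∂perc ≤ ∫ _ω', (1 : ℝ) ∂perc :=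
            integral_mono iG (integrable_const _) fun ω' => hg _
        _ = 1 := by simp
    have h3 := abs_sub (g (curve n ω)) (∫ ω', g (curve n ω') ∂perc)
    linarith
  · intro ε hε
    obtain ⟨Λ, hΛ, h⟩ := tight_curve hc0 hC0 hL hU (β := 1/2) (by norm_num) (by norm_num) hε
    exact ⟨GoodC (1/2) Λ, goodC_compact (by norm_num) hΛ, h⟩

end Pool.Agent.Q218.DC
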