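import Pool.Agent.Q220.Dep.Dep

/-!
Resampling of the coordinates in a set `D` for a product measure, and the resulting bound for
covariances.
-/

set_option autoImplicit false

namespace Pool.Agent.Q218.DC

open MeasureTheory ProbabilityTheory
open Pool.Agent.Q220.DP

section gen

variable {ι β : Type*} [mβ : MeasurableSpace β]

open Classical in
/-- the coordinates of `D` are taken from the second configuration -/
noncomputable def mix (D : Set ι) (ω ω' : ι → β) : ι → β := fun i => if i ∈ D then ω' i else ω i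

theorem mix_in {D : Set ι} {ω ω' : ι → β} {i : ι} (h : i ∈ D) : mix D ω ω' i = ω' i := by
  unfold mix
  rw [if_pos h]

theorem mix_out {D : Set ι} {ω ω' : ι → β} {i : ι} (h : i ∉ D) : mix D ω ω' i = ω i := by
  unfold mix
  rw [if_neg h]

theorem mix_meas (D : Set ι) : Measurable (fun p : (ι → β) × (ι → β) => mix D p.1 p.2) := by
  rw [measurable_pi_iff]
  intro i
  by_cases h : i ∈ D
  · simp only [mix_in h]
    exact (measurable_pi_apply i).comp measurable_snd
  · simp only [mix_out h]
    exact (measurable_pi_apply i).comp measurable_fst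

theorem mix_meas_left (D : Set ι) (ω' : ι → β) : Measurable (fun ω : ι → β => mix D ω ω') :=
  (mix_meas D).comp (measurable_id.prodMk measurable_const)

variable (m : ι → Measure β) [∀ i, IsProbabilityMeasure (m i)]

theorem mix_mp (D : Set ι) :
    MeasurePreserving (fun p : (ι → β) × (ι → β) => mix D p.1 p.2)
      ((Measure.infinitePi m).prod (Measure.infinitePi m)) (Measure.infinitePi m) := by
  classical
  refine ⟨mix_meas D, ?_⟩
  refine Measure.eq_infinitePi m fun s t ht => ?_
  rw [Measure.map_apply (mix_meas D) (MeasurableSet.pi s.countable_toSet (fun i _ => ht i))]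
  have e : (fun p : (ι → β) × (ι → β) => mix D p.1 p.2) ⁻¹' Set.pi (s : Set ι) t =
      (Set.pi ((s.filter (fun i => i ∉ D) : Finset ι) : Set ι) t) ×ˢ
        (Set.pi ((s.filter (fun i => i ∈ D) : Finset ι) : Set ι) t) := by
    ext ⟨ω, ω'⟩
    simp only [Set.mem_preimage, Set.mem_pi, Finset.mem_coe, Set.mem_prod, Finset.mem_filter]
    constructor
    · intro h
      refine ⟨fun i hi => ?_, fun i hi => ?_⟩
      · have := h i hi.1
        rwa [mix_out hi.2] at this
      · have := h i hi.1
        rwa [mix_in hi.2] at this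
    · rintro ⟨h1, h2⟩ i hi
      by_cases hD : i ∈ D
      · rw [mix_in hD]; exact h2 i ⟨hi, hD⟩
      · rw [mix_out hD]; exact h1 i ⟨hi, hD⟩
  rw [e, Measure.prod_prod, Measure.infinitePi_pi _ (fun i _ => ht i),
    Measure.infinitePi_pi _ (fun i _ => ht i), mul_comm]
  exact Finset.prod_filter_mul_prod_filter_not s (fun i => i ∈ D) _

/-- Functions of disjoint sets of coordinates are independent. -/
theorem indep_fun [Nonempty β] [Countable β] [MeasurableSingletonClass β] {γ δ : Type*} [MeasurableSpace γ] [MeasurableSpace δ]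
    {D1 D2 : Set ι} (hd : Disjoint D1 D2) {F : (ι → β) → γ} {G : (ι → β) → δ}
    (mF : Measurable F) (mG : Measurable G)
    (hF : ∀ ω ω' : ι → β, (∀ i ∈ D1, ω i = ω' i) → F ω = F ω')
    (hG : ∀ ω ω' : ι → β, (∀ i ∈ D2, ω i = ω' i) → G ω = G ω') :
    IndepFun F G (Measure.infinitePi m) := by
  rw [indepFun_iff_measure_inter_preimage_eq_mul]
  intro s t hs ht
  refine Dep.indep_meas m hd ?_ ?_ (mF hs) (mG ht) inferInstance
  · intro ω ω' h hω
    show F ω' ∈ s
    rw [← hF ω ω' h]
    exact hω
  · intro ω ω' h hω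
    show G ω' ∈ t
    rw [← hG ω ω' h]
    exact hω

/-- Integral of a product, one factor resampled. -/
theorem int_mix [Nonempty β] [Countable β] [MeasurableSingletonClass β] (D : Set ι) {F G : (ι → β) → ℝ} (mF : Measurable F)
    (mG : Measurable G) (hF : ∀ ω ω' : ι → β, (∀ i ∈ D, ω i = ω' i) → F ω = F ω')
    {a b : ℝ} (ha : ∀ ω, |F ω| ≤ a) (hb : ∀ ω, |G ω| ≤ b) :
    ∫ p, F p.1 * G (mix D p.1 p.2) ∂((Measure.infinitePi m).prod (Measure.infinitePi m)) =
      (∫ ω, F ω ∂(Measure.infinitePi m)) * ∫ ω, G ω ∂(Measure.infinitePi m) := by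
  set μ := Measure.infinitePi m with hμ
  have hmm := (mix_mp m D)
  have hmeas : Measurable (fun p : (ι → β) × (ι → β) => F p.1 * G (mix D p.1 p.2)) :=
    (mF.comp measurable_fst).mul (mG.comp (mix_meas D))
  have hint : Integrable (fun p : (ι → β) × (ι → β) => F p.1 * G (mix D p.1 p.2)) (μ.prod μ) := by
    refine Integrable.of_bound hmeas.aestronglyMeasurable (a * b) (Filter.Eventually.of_forall ?_)
    intro p
    rw [Real.norm_eq_abs, abs_mul]
    exact mul_le_mul (ha _) (hb _) (abs_nonneg _) ((abs_nonneg _).trans (ha p.1))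
  have hint2 : Integrable (fun p : (ι → β) × (ι → β) => G (mix D p.1 p.2)) (μ.prod μ) := by
    refine Integrable.of_bound (mG.comp (mix_meas D)).aestronglyMeasurable b
      (Filter.Eventually.of_forall ?_)
    intro p
    rw [Real.norm_eq_abs]
    exact hb _
  rw [integral_prod_symm _ hint]
  have h1 : ∀ ω' : ι → β, ∫ ω, F ω * G (mix D ω ω') ∂μ =
      (∫ ω, F ω ∂μ) * ∫ ω, G (mix D ω ω') ∂μ := by
    intro ω'
    have hi : IndepFun F (fun ω => G (mix D ω ω')) μ := by
      refine indep_fun m (D1 := D) (D2 := Dᶜ) disjoint_compl_right mF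
        (mG.comp (mix_meas_left D ω')) hF ?_
      intro ω1 ω2 h
      have : mix D ω1 ω' = mix D ω2 ω' := by
        funext i
        by_cases hi : i ∈ D
        · rw [mix_in hi, mix_in hi]
        · rw [mix_out hi, mix_out hi]; exact h i hi
      show G (mix D ω1 ω') = G (mix D ω2 ω')
      rw [this]
    exact hi.integral_fun_mul_eq_mul_integral mF.aestronglyMeasurable
      (mG.comp (mix_meas_left D ω')).aestronglyMeasurable
  simp only [h1]
  rw [integral_const_mul]
  congr 1
  rw [← integral_prod_symm _ hint2]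
  exact integral_map (μ := μ.prod μ) (φ := fun p : (ι → β) × (ι → β) => mix D p.1 p.2)
    (mix_meas D).aemeasurable (f := G) mG.aestronglyMeasurable |>.symm.trans (by rw [hmm.map_eq])

end gen

end Pool.Agent.Q218.DC
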